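import Pool.Agent.H343Z.DefsG

/-!
# V1s: the contour starting at `U - 1/2`
-/

open Polynomial Pool.Agent.H337R2

namespace Pool.Agent.H343Z

noncomputable section

namespace V1s

/-- shifted index set -/
def sh (s : Finset ℕ) (U : ℕ) : Finset ℕ := s.map (addRightEmbedding U)

lemma prod_sh {M : Type*} [CommMonoid M] (s : Finset ℕ) (U : ℕ) (f : ℕ → M) :
    ∏ m ∈ sh s U, f m = ∏ m ∈ s, f (m + U) := by
  unfold sh
  rw [Finset.prod_map]
  rfl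

lemma QQ_sh (s : Finset ℕ) (μ : ℕ → ℕ) (U : ℕ) :
    QQ (sh s U) (fun k => μ (k - U)) = (QQ s μ).comp (X + C (U : ℚ)) := by
  unfold QQ
  rw [prod_sh, Polynomial.prod_comp]
  refine Finset.prod_congr rfl fun m _ => ?_
  simp only [Nat.add_sub_cancel]
  simp only [pow_comp, add_comp, X_comp, C_comp]
  rw [add_assoc, ← C_add]
  push_cast
  rw [add_comm (m : ℚ)]

lemma TS_comp (U : ℕ) (P : ℚ[X]) (c : ℚ) : TS c (P.comp (X + C (U : ℚ))) = TS (c + U) P := by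
  have h : (TS c).comp (Polynomial.compRingHom (X + C (U : ℚ))) = TS (c + U) := by
    refine Polynomial.ringHom_ext (fun a => ?_) ?_
    · simp [TS_C]
    · rw [RingHom.comp_apply, Polynomial.coe_compRingHom_apply, X_comp, TS_lin, TS_X]
  have h2 := congrArg (fun f : ℚ[X] →+* PowerSeries ℚ => f P) h
  exact h2

lemma VV_sh (s : Finset ℕ) (μ : ℕ → ℕ) (U : ℕ) (c : ℚ) :
    VV (sh s U) (fun k => μ (k - U)) c = VV s μ (c + U) := by
  unfold VV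
  rw [prod_sh]
  refine Finset.prod_congr rfl fun m _ => ?_
  simp only [Nat.add_sub_cancel]
  rw [show c + ((m + U : ℕ) : ℚ) = c + (U : ℚ) + (m : ℚ) by push_cast; ring]

lemma RS_sh (s : Finset ℕ) (μ : ℕ → ℕ) (P : ℚ[X]) (U : ℕ) (c : ℚ) :
    RS (sh s U) (fun k => μ (k - U)) (P.comp (X + C (U : ℚ))) c = RS s μ P (c + U) := by
  unfold RS
  rw [TS_comp, VV_sh]

lemma aeval_sh (P : ℚ[X]) (U : ℕ) (r : ℝ) :
    aeval (zv 0 r) (P.comp (X + C (U : ℚ))) = aeval (zv U r) P := by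
  rw [Polynomial.aeval_comp]
  have h : aeval (zv 0 r) (X + C (U : ℚ)) = zv U r := by
    simp only [map_add, aeval_X, aeval_C, zv, map_natCast]
    push_cast
    ring
  rw [h]

end V1s

open V1s in
/-- the shifted form from the unshifted one -/
theorem V1_shift_of {b : ℕ} (hrot : ∃ C : ℝ, 0 < C ∧ ∀ (s : Finset ℕ) (μ : ℕ → ℕ) (P : ℚ[X]),
    P.degree < (QQ s μ).degree → (∀ k ∈ s, 1 ≤ k) → ∀ F : ℝ,
    HasSum (fun t : ℕ => ((PowerSeries.coeff (b - 1) (RS s μ P (t : ℚ)) : ℚ) : ℝ)) F → ∀ B : ℝ,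
    (∀ r : ℝ, 0 ≤ r → ‖aeval (zv 0 r) P / aeval (zv 0 r) (QQ s μ)‖ * Real.exp (-(2 * Real.pi * r)) ≤
      B * (1 + r ^ 2)⁻¹) → |F| ≤ C * B) :
    ∃ C : ℝ, 0 < C ∧ ∀ (s : Finset ℕ) (μ : ℕ → ℕ) (P : ℚ[X]),
    P.degree < (QQ s μ).degree → (∀ k ∈ s, 1 ≤ k) → ∀ (U : ℕ) (F : ℝ),
    HasSum (fun t : ℕ => ((PowerSeries.coeff (b - 1) (RS s μ P (t : ℚ)) : ℚ) : ℝ)) F →
    (∀ t < U, PowerSeries.coeff (b - 1) (RS s μ P (t : ℚ)) = 0) → ∀ B : ℝ,
    (∀ r : ℝ, 0 ≤ r → ‖aeval (zv U r) P / aeval (zv U r) (QQ s μ)‖ * Real.exp (-(2 * Real.pi * r)) ≤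
      B * (1 + r ^ 2)⁻¹) → |F| ≤ C * B := by
  obtain ⟨K, hK, h⟩ := hrot
  refine ⟨K, hK, fun s μ P hdeg hs U F hF h0 B hB => ?_⟩
  refine h (sh s U) (fun k => μ (k - U)) (P.comp (X + C (U : ℚ))) ?_ ?_ F ?_ B ?_
  · rw [QQ_sh]
    have e : ∀ R : ℚ[X], (R.comp (X + C (U : ℚ))).degree = R.degree := fun R => by
      rw [← Polynomial.taylor_apply, Polynomial.degree_taylor]
    rw [e, e]
    exact hdeg
  · intro k hk
    obtain ⟨m, hm, rfl⟩ := Finset.mem_map.1 hk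
    have := hs m hm
    show 1 ≤ m + U
    omega
  · have h1 := (hasSum_nat_add_iff' U).2 hF
    have h2 : ∑ i ∈ Finset.range U,
        ((PowerSeries.coeff (b - 1) (RS s μ P (i : ℚ)) : ℚ) : ℝ) = 0 := by
      refine Finset.sum_eq_zero fun i hi => ?_
      rw [h0 i (Finset.mem_range.1 hi)]
      simp
    rw [h2, sub_zero] at h1
    have h3 : (fun t : ℕ => ((PowerSeries.coeff (b - 1) (RS (sh s U) (fun k => μ (k - U))
        (P.comp (X + C (U : ℚ))) (t : ℚ)) : ℚ) : ℝ)) =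
        fun t : ℕ => ((PowerSeries.coeff (b - 1) (RS s μ P ((t + U : ℕ) : ℚ)) : ℚ) : ℝ) := by
      funext t
      rw [RS_sh]
      push_cast
      rfl
    rw [h3]
    exact h1
  · intro r hr
    rw [aeval_sh, QQ_sh, aeval_sh]
    exact hB r hr

end

end Pool.Agent.H343Z
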