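import Pool.Agent.H343Z.V1
import Pool.Agent.H343Z.V1s0

/-!
# V1s: the contour starting at `U - 1/2`
-/

open Polynomial Pool.Agent.H337R2

namespace Pool.Agent.H343Z

noncomputable section

/-- the same with the contour starting at `U - 1/2`, when the first `U` terms vanish -/
theorem V1_shift {b : ℕ} (hb : 3 ≤ b) : ∃ C : ℝ, 0 < C ∧ ∀ (s : Finset ℕ) (μ : ℕ → ℕ) (P : ℚ[X]),
    P.degree < (QQ s μ).degree → (∀ k ∈ s, 1 ≤ k) → ∀ (U : ℕ) (F : ℝ),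
    HasSum (fun t : ℕ => ((PowerSeries.coeff (b - 1) (RS s μ P (t : ℚ)) : ℚ) : ℝ)) F →
    (∀ t < U, PowerSeries.coeff (b - 1) (RS s μ P (t : ℚ)) = 0) → ∀ B : ℝ,
    (∀ r : ℝ, 0 ≤ r → ‖aeval (zv U r) P / aeval (zv U r) (QQ s μ)‖ * Real.exp (-(2 * Real.pi * r)) ≤
      B * (1 + r ^ 2)⁻¹) → |F| ≤ C * B :=
  V1_shift_of (V1_rot hb)

end

end Pool.Agent.H343Z
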