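import Pool.Agent.H343Z.DefsG

/-!
# Task V1: rotation of the contour
-/

open MeasureTheory Filter Topology Complex Polynomial Pool.Agent.H337R2

namespace Pool.Agent.H343Z

noncomputable section

namespace V1

/-- the vertex -/
def z0 : ℂ := ((-(1 / 2) : ℝ) : ℂ)

lemma zv_eq (r : ℝ) : zv 0 r = z0 + r * (1 + I) := by
  unfold zv z0; push_cast; ring

lemma zl_eq (y : ℝ) : zl y = z0 + y * I := rfl

/-- rotation of the contour for one function -/
theorem rot (f : ℂ → ℂ) (hd : ∀ z : ℂ, (z.im ≠ 0 ∨ |z.re + 1 / 2| < 1 / 2) → DifferentiableAt ℂ f z)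
    (hy : IntegrableOn (fun y : ℝ => f (z0 + y * I)) (Set.Ioi 0))
    (hr : IntegrableOn (fun r : ℝ => f (z0 + r * (1 + I))) (Set.Ioi 0)) (C : ℝ)
    (hC : ∀ Y : ℝ, 1 ≤ Y → ∀ x : ℝ, 0 ≤ x → x ≤ Y → ‖f (z0 + Y * I + x)‖ ≤ C / Y ^ 2) :
    (∫ y in Set.Ioi (0 : ℝ), f (z0 + y * I)) * I =
      (∫ r in Set.Ioi (0 : ℝ), f (z0 + r * (1 + I))) * (1 + I) := by
  have key : ∀ Y : ℝ, 1 ≤ Y → ‖(∫ y in (0 : ℝ)..Y, f (z0 + y * I)) * I -
      (∫ r in (0 : ℝ)..Y, f (z0 + r * (1 + I))) * (1 + I)‖ ≤ C / Y := by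
    intro Y hY
    have hY0 : 0 < Y := by linarith
    set ρ := Real.sqrt (Y ^ 2 + 1 / 16) with hρ
    have hρ2 : ρ ^ 2 = Y ^ 2 + 1 / 16 := Real.sq_sqrt (by positivity)
    have hρ0 : 0 ≤ ρ := Real.sqrt_nonneg _
    have hmem : ∀ z : ℂ, (z.re + 1 / 2) ^ 2 + (z.im - Y) ^ 2 < Y ^ 2 + 1 / 16 →
        z ∈ Metric.ball (z0 + Y * I) ρ := by
      intro z hz
      rw [mem_ball_iff_norm]
      have h1 : ‖z - (z0 + Y * I)‖ ^ 2 < ρ ^ 2 := by
        rw [hρ2, ← Complex.normSq_eq_norm_sq, Complex.normSq_apply]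
        have e1 : (z - (z0 + Y * I)).re = z.re + 1 / 2 := by
          simp [z0]
        have e2 : (z - (z0 + Y * I)).im = z.im - Y := by
          simp [z0]
        rw [e1, e2]
        nlinarith
      exact lt_of_pow_lt_pow_left₀ 2 hρ0 h1
    have hball : DifferentiableOn ℂ f (Metric.ball (z0 + Y * I) ρ) := by
      intro z hz
      refine (hd z ?_).differentiableWithinAt
      by_cases him : z.im = 0
      · right
        rw [mem_ball_iff_norm] at hz
        have h1 : ‖z - (z0 + Y * I)‖ ^ 2 < ρ ^ 2 := pow_lt_pow_left₀ hz (norm_nonneg _) two_ne_zero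
        rw [hρ2, ← Complex.normSq_eq_norm_sq, Complex.normSq_apply] at h1
        have e1 : (z - (z0 + Y * I)).re = z.re + 1 / 2 := by
          simp [z0]
        have e2 : (z - (z0 + Y * I)).im = z.im - Y := by
          simp [z0]
        rw [e1, e2, him] at h1
        have h2 : (z.re + 1 / 2) ^ 2 < (1 / 2) ^ 2 := by nlinarith
        exact abs_lt_of_sq_lt_sq h2 (by norm_num)
      · exact Or.inl him
    obtain ⟨g, hg⟩ := hball.isExactOn_ball
    have hfc : ∀ z ∈ Metric.ball (z0 + Y * I) ρ, ContinuousAt f z := fun z hz =>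
      (hball.differentiableAt (Metric.isOpen_ball.mem_nhds hz)).continuousAt
    -- vertical side
    have hv1 : ∀ y ∈ Set.uIcc (0 : ℝ) Y, (z0 + y * I) ∈ Metric.ball (z0 + Y * I) ρ := by
      intro y hy
      rw [Set.uIcc_of_le hY0.le] at hy
      apply hmem
      have e1 : (z0 + y * I).re = -(1 / 2) := by simp [z0]
      have e2 : (z0 + y * I).im = y := by simp [z0]
      rw [e1, e2]
      nlinarith [hy.1, hy.2]
    have hv2 : ∀ y ∈ Set.uIcc (0 : ℝ) Y, HasDerivAt (fun y : ℝ => g (z0 + y * I))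
        (f (z0 + y * I) * I) y := by
      intro y hy
      have h1 : HasDerivAt (fun y : ℝ => z0 + (y : ℂ) * I) I y := by
        have := ((Complex.ofRealCLM.hasDerivAt (x := y)).mul_const I).const_add z0
        simpa using this
      exact (hg _ (hv1 y hy)).comp y h1
    have hv3 : ContinuousOn (fun y : ℝ => f (z0 + y * I)) (Set.uIcc (0 : ℝ) Y) := by
      intro y hy
      refine ContinuousAt.continuousWithinAt ?_
      exact ContinuousAt.comp (f := fun y : ℝ => z0 + (y : ℂ) * I) (hfc _ (hv1 y hy))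
        (by fun_prop)
    have hv : (∫ y in (0 : ℝ)..Y, f (z0 + y * I)) * I = g (z0 + Y * I) - g (z0 + (0 : ℝ) * I) := by
      rw [← intervalIntegral.integral_mul_const]
      exact intervalIntegral.integral_eq_sub_of_hasDerivAt hv2
        ((hv3.mul continuousOn_const).intervalIntegrable)
    -- slanted side
    have hs1 : ∀ y ∈ Set.uIcc (0 : ℝ) Y, (z0 + y * (1 + I)) ∈ Metric.ball (z0 + Y * I) ρ := by
      intro y hy
      rw [Set.uIcc_of_le hY0.le] at hy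
      apply hmem
      have e1 : (z0 + y * (1 + I)).re = -(1 / 2) + y := by simp [z0]
      have e2 : (z0 + y * (1 + I)).im = y := by simp [z0]
      rw [e1, e2]
      nlinarith [hy.1, hy.2]
    have hs2 : ∀ y ∈ Set.uIcc (0 : ℝ) Y, HasDerivAt (fun y : ℝ => g (z0 + y * (1 + I)))
        (f (z0 + y * (1 + I)) * (1 + I)) y := by
      intro y hy
      have h1 : HasDerivAt (fun y : ℝ => z0 + (y : ℂ) * (1 + I)) (1 + I) y := by
        have := ((Complex.ofRealCLM.hasDerivAt (x := y)).mul_const (1 + I)).const_add z0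
        simpa using this
      exact (hg _ (hs1 y hy)).comp y h1
    have hs3 : ContinuousOn (fun y : ℝ => f (z0 + y * (1 + I))) (Set.uIcc (0 : ℝ) Y) := by
      intro y hy
      refine ContinuousAt.continuousWithinAt ?_
      exact ContinuousAt.comp (f := fun y : ℝ => z0 + (y : ℂ) * (1 + I)) (hfc _ (hs1 y hy))
        (by fun_prop)
    have hs : (∫ y in (0 : ℝ)..Y, f (z0 + y * (1 + I))) * (1 + I) =
        g (z0 + Y * (1 + I)) - g (z0 + (0 : ℝ) * (1 + I)) := by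
      rw [← intervalIntegral.integral_mul_const]
      exact intervalIntegral.integral_eq_sub_of_hasDerivAt hs2
        ((hs3.mul continuousOn_const).intervalIntegrable)
    -- horizontal side
    have hh1 : ∀ x ∈ Set.Icc (0 : ℝ) Y, (z0 + Y * I + x) ∈ Metric.ball (z0 + Y * I) ρ := by
      intro x hx
      apply hmem
      have e1 : (z0 + Y * I + x).re = -(1 / 2) + x := by simp [z0]
      have e2 : (z0 + Y * I + x).im = Y := by simp [z0]
      rw [e1, e2]
      nlinarith [hx.1, hx.2]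
    have hh2 : ∀ x ∈ Set.Icc (0 : ℝ) Y, HasDerivWithinAt (fun x : ℝ => g (z0 + Y * I + x))
        (f (z0 + Y * I + x)) (Set.Icc (0 : ℝ) Y) x := by
      intro x hx
      have h1 : HasDerivAt (fun x : ℝ => z0 + Y * I + (x : ℂ)) 1 x := by
        have := (Complex.ofRealCLM.hasDerivAt (x := x)).const_add (z0 + Y * I)
        simpa using this
      have h2 := (hg _ (hh1 x hx)).comp x h1
      rw [mul_one] at h2
      exact h2.hasDerivWithinAt
    have hh := norm_image_sub_le_of_norm_deriv_le_segment' (C := C / Y ^ 2) hh2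
      (fun x hx => hC Y hY x hx.1 hx.2.le) Y ⟨hY0.le, le_rfl⟩
    rw [hv, hs]
    have e0 : z0 + ((0 : ℝ) : ℂ) * I = z0 + ((0 : ℝ) : ℂ) * (1 + I) := by simp
    have e1 : z0 + Y * I + (Y : ℂ) = z0 + Y * (1 + I) := by ring
    have e2 : z0 + Y * I + ((0 : ℝ) : ℂ) = z0 + Y * I := by simp
    rw [e1, e2] at hh
    rw [e0]
    have e3 : g (z0 + Y * I) - g (z0 + ((0 : ℝ) : ℂ) * (1 + I)) -
        (g (z0 + Y * (1 + I)) - g (z0 + ((0 : ℝ) : ℂ) * (1 + I))) =
        -(g (z0 + Y * (1 + I)) - g (z0 + Y * I)) := by ring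
    rw [e3, norm_neg]
    refine hh.trans (le_of_eq ?_)
    field_simp
    ring
  have t1 : Tendsto (fun Y : ℝ => (∫ y in (0 : ℝ)..Y, f (z0 + y * I)) * I -
      (∫ r in (0 : ℝ)..Y, f (z0 + r * (1 + I))) * (1 + I)) atTop
      (𝓝 ((∫ y in Set.Ioi (0 : ℝ), f (z0 + y * I)) * I -
      (∫ r in Set.Ioi (0 : ℝ), f (z0 + r * (1 + I))) * (1 + I))) := by
    refine Tendsto.sub ?_ ?_
    · exact (intervalIntegral_tendsto_integral_Ioi 0 hy tendsto_id).mul_const _
    · exact (intervalIntegral_tendsto_integral_Ioi 0 hr tendsto_id).mul_const _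
  have t2 : Tendsto (fun Y : ℝ => (∫ y in (0 : ℝ)..Y, f (z0 + y * I)) * I -
      (∫ r in (0 : ℝ)..Y, f (z0 + r * (1 + I))) * (1 + I)) atTop (𝓝 0) := by
    rw [tendsto_zero_iff_norm_tendsto_zero]
    refine squeeze_zero' (Eventually.of_forall fun Y => norm_nonneg _)
      ((eventually_ge_atTop 1).mono fun Y hY => key Y hY) ?_
    exact tendsto_const_nhds.div_atTop tendsto_id
  exact sub_eq_zero.1 (tendsto_nhds_unique t1 t2)

/-- the rational function as a sum of partial fractions -/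
def Rz (s : Finset ℕ) (μ : ℕ → ℕ) (P : ℚ[X]) (z : ℂ) : ℂ :=
  ∑ k ∈ s, ∑ j ∈ Finset.range (μ k), ((pfc s μ P k j : ℚ) : ℂ) * ((z + k)⁻¹) ^ (μ k - j)

lemma Rz_zl (s : Finset ℕ) (μ : ℕ → ℕ) (P : ℚ[X]) (y : ℝ) : Rz s μ P (zl y) = Rc s μ P y := by
  unfold Rz Rc
  refine Finset.sum_congr rfl fun k _ => Finset.sum_congr rfl fun j _ => ?_
  rw [li_zl]

theorem Rz_eq (s : Finset ℕ) (μ : ℕ → ℕ) (P : ℚ[X]) (hdeg : P.degree < (QQ s μ).degree) (z : ℂ)
    (hz : ∀ k ∈ s, z + k ≠ 0) :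
    Rz s μ P z = aeval z P / aeval z (QQ s μ) := by
  have hQ : aeval z (QQ s μ) ≠ 0 := by
    unfold QQ
    rw [map_prod, Finset.prod_ne_zero_iff]
    intro m hm
    rw [map_pow, map_add, aeval_X, aeval_C]
    apply pow_ne_zero
    have := hz m hm
    simpa using this
  rw [eq_div_iff hQ]
  conv_rhs => rw [pf_identity s μ P hdeg]
  unfold Rz
  rw [map_sum, Finset.sum_mul]
  apply Finset.sum_congr rfl
  intro k hk
  rw [map_sum, Finset.sum_mul]
  apply Finset.sum_congr rfl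
  intro j hj
  rw [Finset.mem_range] at hj
  rw [QQ_erase s μ hk, map_mul, map_mul, map_mul, map_pow, map_pow, map_add, aeval_X, aeval_C,
    aeval_C]
  have e1 : (algebraMap ℚ ℂ) (k : ℚ) = (k : ℂ) := by simp
  have e2 : (algebraMap ℚ ℂ) (pfc s μ P k j) = ((pfc s μ P k j : ℚ) : ℂ) := rfl
  rw [e1, e2]
  have hz' := hz k hk
  have e3 : (z + k) ^ μ k = (z + k) ^ (μ k - j) * (z + k) ^ j := by
    rw [← pow_add, Nat.sub_add_cancel hj.le]
  rw [e3, inv_pow]
  field_simp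

/-- the weight -/
def wt (t : ℝ) : ℝ := (Real.sqrt (1 + t ^ 2))⁻¹

lemma wt_nonneg (t : ℝ) : 0 ≤ wt t := by unfold wt; positivity

lemma wt_le_one (t : ℝ) : wt t ≤ 1 := by
  unfold wt
  apply inv_le_one_of_one_le₀
  rw [Real.one_le_sqrt]
  nlinarith [sq_nonneg t]

lemma wt_mul (t : ℝ) : wt t * wt t = (1 + t ^ 2)⁻¹ := by
  unfold wt
  rw [← mul_inv, Real.mul_self_sqrt (by positivity)]

/-- a norm bound from a bound for the square -/
lemma inv_le_wt {w : ℂ} {t c : ℝ} (hc : 0 < c) (h : 1 + t ^ 2 ≤ c ^ 2 * (w.re ^ 2 + w.im ^ 2)) :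
    ‖w⁻¹‖ ≤ c * wt t := by
  have h1 : Real.sqrt (1 + t ^ 2) ≤ c * ‖w‖ := by
    rw [Real.sqrt_le_left (by positivity), mul_pow, ← Complex.normSq_eq_norm_sq,
      Complex.normSq_apply]
    nlinarith
  have h2 : 0 < Real.sqrt (1 + t ^ 2) := Real.sqrt_pos.2 (by positivity)
  have h3 : 0 < ‖w‖ := by
    by_contra hcon
    have : ‖w‖ = 0 := le_antisymm (not_lt.1 hcon) (norm_nonneg _)
    rw [this, mul_zero] at h1
    linarith
  rw [norm_inv, wt]
  rw [inv_le_iff_one_le_mul₀ h3, mul_assoc, mul_comm (Real.sqrt (1 + t ^ 2))⁻¹, ← mul_assoc,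
    le_mul_inv_iff₀ h2, one_mul]
  exact h1

lemma Rz_le (s : Finset ℕ) (μ : ℕ → ℕ) (P : ℚ[X]) (hs : ∀ k ∈ s, 1 ≤ k) :
    ∃ C : ℝ, 0 < C ∧ ∀ z : ℂ, -(1 / 2) ≤ z.re → ‖Rz s μ P z‖ ≤ C * wt z.im := by
  refine ⟨(∑ k ∈ s, ∑ j ∈ Finset.range (μ k), ‖((pfc s μ P k j : ℚ) : ℂ)‖ * 2 ^ (μ k - j)) + 1,
    ?_, fun z hz => ?_⟩
  · have : 0 ≤ ∑ k ∈ s, ∑ j ∈ Finset.range (μ k), ‖((pfc s μ P k j : ℚ) : ℂ)‖ * 2 ^ (μ k - j) :=
      Finset.sum_nonneg fun k _ => Finset.sum_nonneg fun j _ => by positivity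
    linarith
  · have h0 := wt_nonneg z.im
    have h1 := wt_le_one z.im
    calc ‖Rz s μ P z‖ ≤ ∑ k ∈ s, ∑ j ∈ Finset.range (μ k),
          (‖((pfc s μ P k j : ℚ) : ℂ)‖ * 2 ^ (μ k - j)) * wt z.im := by
          unfold Rz
          refine (norm_sum_le _ _).trans (Finset.sum_le_sum fun k hk => ?_)
          refine (norm_sum_le _ _).trans (Finset.sum_le_sum fun j hj => ?_)
          rw [Finset.mem_range] at hj
          rw [norm_mul, norm_pow, mul_assoc]
          refine mul_le_mul_of_nonneg_left ?_ (norm_nonneg _)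
          have hk1 : (1 : ℝ) ≤ k := by exact_mod_cast hs k hk
          have h2 : ‖(z + k)⁻¹‖ ≤ 2 * wt z.im := by
            apply inv_le_wt (by norm_num)
            have e1 : (z + (k : ℂ)).re = z.re + k := by simp
            have e2 : (z + (k : ℂ)).im = z.im := by simp
            rw [e1, e2]
            nlinarith
          calc ‖(z + k)⁻¹‖ ^ (μ k - j) ≤ (2 * wt z.im) ^ (μ k - j) :=
                pow_le_pow_left₀ (norm_nonneg _) h2 _
            _ = 2 ^ (μ k - j) * wt z.im ^ (μ k - j) := mul_pow _ _ _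
            _ ≤ 2 ^ (μ k - j) * wt z.im ^ 1 := by
                refine mul_le_mul_of_nonneg_left ?_ (by positivity)
                exact pow_le_pow_of_le_one h0 h1 (by omega)
            _ = 2 ^ (μ k - j) * wt z.im := by rw [pow_one]
      _ = (∑ k ∈ s, ∑ j ∈ Finset.range (μ k), ‖((pfc s μ P k j : ℚ) : ℂ)‖ * 2 ^ (μ k - j)) *
            wt z.im := by
          rw [Finset.sum_mul]
          refine Finset.sum_congr rfl fun k _ => ?_
          rw [Finset.sum_mul]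
      _ ≤ _ := by nlinarith

lemma Rz_diff (s : Finset ℕ) (μ : ℕ → ℕ) (P : ℚ[X]) (z : ℂ) (hz : ∀ k ∈ s, z + k ≠ 0) :
    DifferentiableAt ℂ (Rz s μ P) z := by
  unfold Rz
  refine DifferentiableAt.fun_sum fun k hk => DifferentiableAt.fun_sum fun j _ => ?_
  have h1 : DifferentiableAt ℂ (fun z : ℂ => z + (k : ℂ)) z := by fun_prop
  exact ((h1.inv (hz k hk)).pow _).const_mul _

/-- one term -/
def ft (s : Finset ℕ) (μ : ℕ → ℕ) (P : ℚ[X]) (b : ℕ) (m : ℤ) (z : ℂ) : ℂ :=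
  Rz s μ P z * ((z - m)⁻¹) ^ b

/-- no integer in the region -/
lemma region {z : ℂ} (hz : z.im ≠ 0 ∨ |z.re + 1 / 2| < 1 / 2) (m : ℤ) : z - m ≠ 0 := by
  intro h
  have hz' : z = m := sub_eq_zero.1 h
  rcases hz with h1 | h1
  · rw [hz'] at h1
    simp at h1
  · rw [hz'] at h1
    have e1 : ((m : ℂ)).re = (m : ℝ) := by simp
    rw [e1, abs_lt] at h1
    have h2 : (-1 : ℝ) < m := by linarith [h1.1]
    have h3 : (m : ℝ) < 0 := by linarith [h1.2]
    have h4 : (-1 : ℤ) < m := by exact_mod_cast h2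
    have h5 : m < 0 := by exact_mod_cast h3
    omega

lemma region' {z : ℂ} (hz : z.im ≠ 0 ∨ |z.re + 1 / 2| < 1 / 2) (k : ℕ) : z + k ≠ 0 := by
  have := region hz (-(k : ℤ))
  simpa using this

lemma ft_diff (s : Finset ℕ) (μ : ℕ → ℕ) (P : ℚ[X]) (b : ℕ) (m : ℤ) (z : ℂ)
    (hz : z.im ≠ 0 ∨ |z.re + 1 / 2| < 1 / 2) : DifferentiableAt ℂ (ft s μ P b m) z := by
  unfold ft
  have h1 : DifferentiableAt ℂ (fun z : ℂ => z - (m : ℂ)) z := by fun_prop
  exact (Rz_diff s μ P z fun k _ => region' hz k).mul ((h1.inv (region hz m)).pow _)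

lemma zv_region (r : ℝ) (hr : 0 ≤ r) : (zv 0 r).im ≠ 0 ∨ |(zv 0 r).re + 1 / 2| < 1 / 2 := by
  rcases hr.eq_or_lt with h | h
  · right
    rw [← h]
    simp [zv]
  · left
    have : (zv 0 r).im = r := by simp [zv]
    rw [this]
    exact h.ne'

lemma zv_re (r : ℝ) : (zv 0 r).re = -(1 / 2) + r := by simp [zv]

lemma zv_im (r : ℝ) : (zv 0 r).im = r := by simp [zv]

/-- the bound on the ray for one factor, in `m` -/
lemma ray_m (m : ℤ) (r : ℝ) : ‖(zv 0 r - m)⁻¹‖ ≤ 8 * (|(m : ℝ)| + 1)⁻¹ := by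
  have h1 := hm_abs m
  have h2 : 0 < |(m : ℝ)| + 1 := by positivity
  have h3 : 0 < (|(m : ℝ)| + 1) / 8 := by positivity
  have h4 : (|(m : ℝ)| + 1) / 8 ≤ ‖zv 0 r - m‖ := by
    have h5 : ((|(m : ℝ)| + 1) / 8) ^ 2 ≤ ‖zv 0 r - m‖ ^ 2 := by
      rw [← Complex.normSq_eq_norm_sq, Complex.normSq_apply]
      have e1 : (zv 0 r - m).re = hm m + r := by
        rw [Complex.sub_re, zv_re]
        unfold hm
        simp
        ring
      have e2 : (zv 0 r - m).im = r := by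
        rw [Complex.sub_im, zv_im]
        simp
      rw [e1, e2]
      have h6 : ((|(m : ℝ)| + 1) / 4) ^ 2 ≤ (hm m) ^ 2 := by
        rw [← sq_abs (hm m)]
        exact pow_le_pow_left₀ (by positivity) h1 2
      nlinarith [sq_nonneg (hm m + 2 * r)]
    exact le_of_sq_le_sq h5 (norm_nonneg _)
  rw [norm_inv]
  calc ‖zv 0 r - m‖⁻¹ ≤ ((|(m : ℝ)| + 1) / 8)⁻¹ := inv_anti₀ h3 h4
    _ = 8 * (|(m : ℝ)| + 1)⁻¹ := by rw [inv_div, div_eq_mul_inv]

/-- the bound on the ray for one factor, in `r` -/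
lemma ray_r (m : ℤ) (r : ℝ) : ‖(zv 0 r - m)⁻¹‖ ≤ 4 * wt r := by
  apply inv_le_wt (by norm_num)
  have e1 : (zv 0 r - m).re = hm m + r := by
    rw [Complex.sub_re, zv_re]
    unfold hm
    simp
    ring
  have e2 : (zv 0 r - m).im = r := by
    rw [Complex.sub_im, zv_im]
    simp
  rw [e1, e2]
  have h2 : (1 : ℝ) / 4 ≤ (hm m) ^ 2 := by
    unfold hm
    rcases le_or_gt 0 m with h | h
    · have h' : (0 : ℝ) ≤ m := by exact_mod_cast h
      nlinarith
    · have h' : (m : ℝ) ≤ -1 := by exact_mod_cast (by omega : m ≤ -1)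
      nlinarith
  nlinarith [sq_nonneg (hm m + 2 * r)]

lemma ray_pow {b : ℕ} (hb : 2 ≤ b) (m : ℤ) (r : ℝ) :
    ‖((zv 0 r - m)⁻¹) ^ b‖ ≤ 8 ^ b * (1 / (|(m : ℝ)| + 1) ^ 2) := by
  rw [norm_pow]
  calc _ ≤ (8 * (|(m : ℝ)| + 1)⁻¹) ^ b := pow_le_pow_left₀ (norm_nonneg _) (ray_m m r) b
    _ = 8 ^ b * ((|(m : ℝ)| + 1)⁻¹) ^ b := mul_pow _ _ _
    _ ≤ 8 ^ b * ((|(m : ℝ)| + 1)⁻¹) ^ 2 := by
        apply mul_le_mul_of_nonneg_left _ (by positivity)
        apply pow_le_pow_of_le_one (by positivity) _ hb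
        apply inv_le_one_of_one_le₀
        linarith [abs_nonneg (m : ℝ)]
    _ = _ := by rw [inv_pow, one_div]

/-- the kernel -/
def KZ (b : ℕ) (z : ℂ) : ℂ := ∑' m : ℤ, ((z - m)⁻¹) ^ b

lemma KZ_zl (b : ℕ) (y : ℝ) : KZ b (zl y) = KK b y := by
  unfold KZ KK
  congr 1
  ext m
  unfold li hm zl
  congr 2
  push_cast
  ring

lemma KZ_le {b : ℕ} (hb : 2 ≤ b) (r : ℝ) :
    ‖KZ b (zv 0 r)‖ ≤ 8 ^ b * ∑' m : ℤ, 1 / (|(m : ℝ)| + 1) ^ 2 := by
  unfold KZ
  rw [← tsum_mul_left]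
  exact tsum_of_norm_bounded ((summable_abs_sq.mul_left _).hasSum) (fun m => ray_pow hb m r)

lemma KZ_eq {k : ℕ} (hk : 1 ≤ k) {z : ℂ} (hz : 0 < z.im) :
    KZ (k + 1) z = ((-2 * Real.pi * I) ^ (k + 1) / (Nat.factorial k : ℂ)) *
      ∑' n : ℕ, (n : ℂ) ^ k * Complex.exp (2 * Real.pi * I * z) ^ n := by
  have h := EisensteinSeries.qExpansion_identity hk ⟨z, hz⟩
  rw [← UpperHalfPlane.coe_mk z hz]
  rw [← h]
  unfold KZ
  rw [← (Equiv.neg ℤ).tsum_eq]
  congr 1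
  ext m
  simp only [Equiv.neg_apply, UpperHalfPlane.coe_mk]
  rw [inv_pow, one_div]
  congr 2
  push_cast
  ring

theorem KZ_exp {b : ℕ} (hb : 2 ≤ b) : ∃ C : ℝ, 0 < C ∧ ∀ r : ℝ, 0 ≤ r →
    ‖KZ b (zv 0 r)‖ ≤ C * Real.exp (-(2 * Real.pi * r)) := by
  obtain ⟨k, rfl⟩ : ∃ k, b = k + 1 := ⟨b - 1, by omega⟩
  set C1 : ℝ := 8 ^ (k + 1) * ∑' m : ℤ, 1 / (|(m : ℝ)| + 1) ^ 2 with hC1
  have hC1' : 0 ≤ C1 := by
    rw [hC1]
    apply mul_nonneg (by positivity)
    exact tsum_nonneg fun m => by positivity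
  have hs : Summable (fun n : ℕ => (n : ℝ) ^ k * Real.exp (-(2 * Real.pi) * n)) :=
    Real.summable_pow_mul_exp_neg_nat_mul k (by positivity)
  set C2 : ℝ := (2 * Real.pi) ^ (k + 1) * (Real.exp (2 * Real.pi) *
    ∑' n : ℕ, (n : ℝ) ^ k * Real.exp (-(2 * Real.pi) * n)) with hC2
  have hC2' : 0 ≤ C2 := by
    rw [hC2]
    apply mul_nonneg (by positivity)
    apply mul_nonneg (by positivity)
    exact tsum_nonneg fun m => by positivity
  refine ⟨C1 * Real.exp (2 * Real.pi) + C2 + 1, by positivity, fun y hy => ?_⟩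
  rcases lt_or_ge y 1 with h1 | h1
  · have h2 := KZ_le hb y
    have h3 : 1 ≤ Real.exp (2 * Real.pi) * Real.exp (-(2 * Real.pi * y)) := by
      rw [← Real.exp_add]
      apply Real.one_le_exp
      nlinarith [Real.pi_pos]
    calc _ ≤ C1 := h2
      _ = C1 * 1 := (mul_one _).symm
      _ ≤ C1 * (Real.exp (2 * Real.pi) * Real.exp (-(2 * Real.pi * y))) :=
        mul_le_mul_of_nonneg_left h3 hC1'
      _ = C1 * Real.exp (2 * Real.pi) * Real.exp (-(2 * Real.pi * y)) := by ring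
      _ ≤ _ := by
        apply mul_le_mul_of_nonneg_right _ (by positivity)
        linarith
  · have hy0 : 0 < y := by linarith
    rw [KZ_eq (by omega) (by rw [zv_im]; exact hy0)]
    have hq : ‖Complex.exp (2 * Real.pi * I * zv 0 y)‖ = Real.exp (-(2 * Real.pi * y)) := by
      rw [Complex.norm_exp]
      congr 1
      simp [zv]
    rw [norm_mul]
    have e1 : ‖(-2 * (Real.pi : ℂ) * I) ^ (k + 1) / (Nat.factorial k : ℂ)‖ ≤
        (2 * Real.pi) ^ (k + 1) := by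
      rw [norm_div, norm_pow, norm_mul, norm_mul, Complex.norm_I, mul_one, Complex.norm_natCast,
        norm_neg]
      have : ‖(2 : ℂ)‖ * ‖(Real.pi : ℂ)‖ = 2 * Real.pi := by
        rw [Complex.norm_ofNat, Complex.norm_real, Real.norm_of_nonneg Real.pi_pos.le]
      rw [this]
      apply div_le_self (by positivity)
      exact_mod_cast Nat.succ_le_of_lt (Nat.factorial_pos k)
    have e2 : ‖∑' n : ℕ, (n : ℂ) ^ k * Complex.exp (2 * Real.pi * I * zv 0 y) ^ n‖ ≤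
        (Real.exp (2 * Real.pi) * ∑' n : ℕ, (n : ℝ) ^ k * Real.exp (-(2 * Real.pi) * n)) *
          Real.exp (-(2 * Real.pi * y)) := by
      have hs2 : Summable (fun n : ℕ => (Real.exp (2 * Real.pi) * Real.exp (-(2 * Real.pi * y))) *
          ((n : ℝ) ^ k * Real.exp (-(2 * Real.pi) * n))) :=
        hs.mul_left _
      have := tsum_of_norm_bounded hs2.hasSum
        (f := fun n : ℕ => (n : ℂ) ^ k * Complex.exp (2 * Real.pi * I * zv 0 y) ^ n) (by
        intro n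
        rw [norm_mul, norm_pow, norm_pow, hq, Complex.norm_natCast]
        rcases Nat.eq_zero_or_pos n with hn | hn
        · subst hn
          rw [Nat.cast_zero, zero_pow (by omega)]
          simp
        · have hn1 : (1 : ℝ) ≤ n := by exact_mod_cast hn
          have h5 : Real.exp (-(2 * Real.pi * y)) ^ n ≤
              Real.exp (2 * Real.pi) * Real.exp (-(2 * Real.pi * y)) *
                Real.exp (-(2 * Real.pi) * n) := by
            rw [← Real.exp_nat_mul, ← Real.exp_add, ← Real.exp_add]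
            apply Real.exp_le_exp.2
            nlinarith [Real.pi_pos, mul_nonneg (mul_nonneg Real.pi_pos.le (sub_nonneg.2 hn1))
              (sub_nonneg.2 h1)]
          calc _ ≤ (n : ℝ) ^ k * (Real.exp (2 * Real.pi) * Real.exp (-(2 * Real.pi * y)) *
                Real.exp (-(2 * Real.pi) * n)) :=
                mul_le_mul_of_nonneg_left h5 (by positivity)
            _ = _ := by ring)
      refine this.trans (le_of_eq ?_)
      rw [tsum_mul_left]
      ring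
    calc _ ≤ (2 * Real.pi) ^ (k + 1) * ((Real.exp (2 * Real.pi) *
          ∑' n : ℕ, (n : ℝ) ^ k * Real.exp (-(2 * Real.pi) * n)) *
            Real.exp (-(2 * Real.pi * y))) :=
          mul_le_mul e1 e2 (norm_nonneg _) (by positivity)
      _ = C2 * Real.exp (-(2 * Real.pi * y)) := by rw [hC2]; ring
      _ ≤ _ := by
        apply mul_le_mul_of_nonneg_right _ (by positivity)
        nlinarith [mul_nonneg hC1' (Real.exp_pos (2 * Real.pi)).le]

lemma ft_ray_le (s : Finset ℕ) (μ : ℕ → ℕ) (P : ℚ[X]) (hs : ∀ k ∈ s, 1 ≤ k) {b : ℕ}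
    (hb : 3 ≤ b) : ∃ C : ℝ, 0 < C ∧ ∀ (m : ℤ) (r : ℝ), 0 ≤ r → ‖ft s μ P b m (zv 0 r)‖ ≤
      (C * (1 / (|(m : ℝ)| + 1) ^ 2)) * (1 + r ^ 2)⁻¹ := by
  obtain ⟨C, hC, h⟩ := Rz_le s μ P hs
  refine ⟨C * (4 * 8 ^ (b - 1)), by positivity, fun m r hr => ?_⟩
  obtain ⟨b', rfl⟩ : ∃ b', b = b' + 1 := ⟨b - 1, by omega⟩
  rw [ft, norm_mul, pow_succ, norm_mul, Nat.add_sub_cancel]
  have h1 := ray_pow (b := b') (by omega) m r
  have h2 := ray_r m r
  have h3 := h (zv 0 r) (by rw [zv_re]; linarith)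
  rw [zv_im] at h3
  have h4 := wt_mul r
  have h5 := wt_nonneg r
  calc _ ≤ (C * wt r) * ((8 ^ b' * (1 / (|(m : ℝ)| + 1) ^ 2)) * (4 * wt r)) := by
        gcongr
    _ = C * (4 * 8 ^ b') * (1 / (|(m : ℝ)| + 1) ^ 2) * (wt r * wt r) := by ring
    _ = _ := by rw [h4]

lemma zv_cont : Continuous (zv 0) := by
  unfold zv
  fun_prop

lemma ft_cont (s : Finset ℕ) (μ : ℕ → ℕ) (P : ℚ[X]) (b : ℕ) (m : ℤ) :
    ContinuousOn (fun r : ℝ => ft s μ P b m (zv 0 r)) (Set.Ioi 0) := by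
  intro r hr
  refine ContinuousAt.continuousWithinAt ?_
  exact ContinuousAt.comp (f := zv 0)
    (ft_diff s μ P b m _ (zv_region r (le_of_lt hr))).continuousAt zv_cont.continuousAt

lemma ft_int (s : Finset ℕ) (μ : ℕ → ℕ) (P : ℚ[X]) (hs : ∀ k ∈ s, 1 ≤ k) {b : ℕ}
    (hb : 3 ≤ b) (m : ℤ) : IntegrableOn (fun r : ℝ => ft s μ P b m (zv 0 r)) (Set.Ioi 0) := by
  obtain ⟨C, _, hC⟩ := ft_ray_le s μ P hs hb
  refine Integrable.mono' ((integrable_inv_one_add_sq.const_mul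
    (C * (1 / (|(m : ℝ)| + 1) ^ 2))).integrableOn) ?_ ?_
  · exact (ft_cont s μ P b m).aestronglyMeasurable measurableSet_Ioi
  · exact ae_restrict_of_forall_mem measurableSet_Ioi fun r hr => hC m r (le_of_lt hr)

lemma ft_hasSum (s : Finset ℕ) (μ : ℕ → ℕ) (P : ℚ[X]) (hs : ∀ k ∈ s, 1 ≤ k) {b : ℕ}
    (hb : 3 ≤ b) : HasSum (fun m : ℤ => ∫ r in Set.Ioi (0 : ℝ), ft s μ P b m (zv 0 r))
      (∫ r in Set.Ioi (0 : ℝ), Rz s μ P (zv 0 r) * KZ b (zv 0 r)) := by
  obtain ⟨C, _, hC⟩ := ft_ray_le s μ P hs hb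
  have h := hasSum_integral_of_summable_integral_norm (μ := volume.restrict (Set.Ioi (0 : ℝ)))
    (F := fun (m : ℤ) (r : ℝ) => ft s μ P b m (zv 0 r))
    (fun m => ft_int s μ P hs hb m) (by
      apply Summable.of_nonneg_of_le (fun m => integral_nonneg fun y => norm_nonneg _)
        (f := fun m : ℤ => (C * (1 / (|(m : ℝ)| + 1) ^ 2)) *
          ∫ y in Set.Ioi (0 : ℝ), (1 + y ^ 2)⁻¹)
      · intro m
        rw [← integral_const_mul]
        refine setIntegral_mono_on (ft_int s μ P hs hb m).norm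
          (integrable_inv_one_add_sq.const_mul _).integrableOn measurableSet_Ioi ?_
        intro r hr
        exact hC m r (le_of_lt hr)
      · exact (summable_abs_sq.mul_left C).mul_right _)
  have e : (∫ r in Set.Ioi (0 : ℝ), Rz s μ P (zv 0 r) * KZ b (zv 0 r)) =
      ∫ r in Set.Ioi (0 : ℝ), ∑' m : ℤ, ft s μ P b m (zv 0 r) := by
    refine integral_congr_ae (Filter.Eventually.of_forall fun y => ?_)
    simp only [KZ, ft]
    rw [tsum_mul_left]
  rw [e]
  exact h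

lemma vt_hasSum (s : Finset ℕ) (μ : ℕ → ℕ) (P : ℚ[X]) {b : ℕ} (hb : 3 ≤ b) :
    HasSum (fun m : ℤ => ∫ y in Set.Ioi (0 : ℝ), Rc s μ P y * li (hm m) y ^ b)
      (∫ y in Set.Ioi (0 : ℝ), Rc s μ P y * KK b y) := by
  obtain ⟨C, _, hC⟩ := term_int_norm s μ P hb
  have h := hasSum_integral_of_summable_integral_norm (μ := volume.restrict (Set.Ioi (0 : ℝ)))
    (F := fun (m : ℤ) (y : ℝ) => Rc s μ P y * li (hm m) y ^ b)
    (fun m => (term_integrable s μ P hb m).integrableOn) (by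
      apply Summable.of_nonneg_of_le (fun m => integral_nonneg fun y => norm_nonneg _)
        (f := fun m : ℤ => (C * (1 / (|(m : ℝ)| + 1) ^ 2)) *
          ∫ y in Set.Ioi (0 : ℝ), (1 + y ^ 2)⁻¹)
      · intro m
        rw [← integral_const_mul]
        refine setIntegral_mono_on (term_integrable s μ P hb m).norm.integrableOn
          (integrable_inv_one_add_sq.const_mul _).integrableOn measurableSet_Ioi ?_
        intro r _
        exact hC m r
      · exact (summable_abs_sq.mul_left C).mul_right _)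
  have e : (∫ y in Set.Ioi (0 : ℝ), Rc s μ P y * KK b y) =
      ∫ y in Set.Ioi (0 : ℝ), ∑' m : ℤ, Rc s μ P y * li (hm m) y ^ b := by
    refine integral_congr_ae (Filter.Eventually.of_forall fun y => ?_)
    simp only [KK]
    rw [tsum_mul_left]
  rw [e]
  exact h

lemma ft_zl (s : Finset ℕ) (μ : ℕ → ℕ) (P : ℚ[X]) (b : ℕ) (m : ℤ) (y : ℝ) :
    ft s μ P b m (z0 + y * I) = Rc s μ P y * li (hm m) y ^ b := by
  rw [← zl_eq, ft, Rz_zl]
  congr 1
  unfold li hm zl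
  congr 2
  push_cast
  ring

/-- rotation of one term -/
lemma ft_rot (s : Finset ℕ) (μ : ℕ → ℕ) (P : ℚ[X]) (hs : ∀ k ∈ s, 1 ≤ k) {b : ℕ}
    (hb : 3 ≤ b) (m : ℤ) :
    (∫ y in Set.Ioi (0 : ℝ), Rc s μ P y * li (hm m) y ^ b) * I =
      (∫ r in Set.Ioi (0 : ℝ), ft s μ P b m (zv 0 r)) * (1 + I) := by
  obtain ⟨C, hC0, hC⟩ := Rz_le s μ P hs
  have hint1 : IntegrableOn (fun y : ℝ => ft s μ P b m (z0 + y * I)) (Set.Ioi 0) := by
    simp_rw [ft_zl]
    exact (term_integrable s μ P hb m).integrableOn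
  have hint2 : IntegrableOn (fun r : ℝ => ft s μ P b m (z0 + r * (1 + I))) (Set.Ioi 0) := by
    simp_rw [← zv_eq]
    exact ft_int s μ P hs hb m
  have h := rot (ft s μ P b m) (fun z hz => ft_diff s μ P b m z hz) hint1 hint2 C (by
    intro Y hY x hx _
    have hY0 : 0 < Y := by linarith
    have e1 : (z0 + Y * I + x).re = -(1 / 2) + x := by simp [z0]
    have e2 : (z0 + Y * I + x).im = Y := by simp [z0]
    have h1 := hC (z0 + Y * I + x) (by rw [e1]; linarith)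
    have h2 : ‖Rz s μ P (z0 + Y * I + x)‖ ≤ C := by
      refine h1.trans ?_
      calc C * wt _ ≤ C * 1 := mul_le_mul_of_nonneg_left (wt_le_one _) hC0.le
        _ = C := mul_one C
    have h3 : ‖(z0 + Y * I + x - m)⁻¹‖ ≤ Y⁻¹ := by
      rw [norm_inv]
      apply inv_anti₀ hY0
      have h4 := Complex.abs_im_le_norm (z0 + Y * I + x - m)
      rw [Complex.sub_im, e2] at h4
      simp only [Complex.intCast_im, sub_zero] at h4
      exact (le_abs_self Y).trans h4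
    rw [ft, norm_mul, norm_pow]
    have h5 : ‖(z0 + Y * I + x - m)⁻¹‖ ^ b ≤ (Y ^ 2)⁻¹ := by
      calc _ ≤ (Y⁻¹) ^ b := pow_le_pow_left₀ (norm_nonneg _) h3 b
        _ ≤ (Y⁻¹) ^ 2 := pow_le_pow_of_le_one (by positivity) (inv_le_one_of_one_le₀ hY) (by omega)
        _ = _ := inv_pow _ _
    rw [div_eq_mul_inv]
    exact mul_le_mul h2 h5 (by positivity) hC0.le)
  simp_rw [ft_zl, ← zv_eq] at h
  exact h

lemma rot_sum (s : Finset ℕ) (μ : ℕ → ℕ) (P : ℚ[X]) (hs : ∀ k ∈ s, 1 ≤ k) {b : ℕ}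
    (hb : 3 ≤ b) :
    (∫ y in Set.Ioi (0 : ℝ), Rc s μ P y * KK b y) * I =
      (∫ r in Set.Ioi (0 : ℝ), Rz s μ P (zv 0 r) * KZ b (zv 0 r)) * (1 + I) := by
  have h1 := (vt_hasSum s μ P hb).mul_right I
  have h2 := (ft_hasSum s μ P hs hb).mul_right (1 + I)
  simp_rw [fun m => ft_rot s μ P hs hb m] at h1
  exact h1.unique h2

lemma Rc_neg (s : Finset ℕ) (μ : ℕ → ℕ) (P : ℚ[X]) (y : ℝ) :
    Rc s μ P (-y) = (starRingEnd ℂ) (Rc s μ P y) := by
  unfold Rc
  rw [map_sum]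
  refine Finset.sum_congr rfl fun k _ => ?_
  rw [map_sum]
  refine Finset.sum_congr rfl fun j _ => ?_
  rw [map_mul, map_pow]
  congr 1
  · exact (map_ratCast (starRingEnd ℂ) _).symm
  · congr 1
    unfold li
    rw [map_inv₀, map_add, map_mul, Complex.conj_I, Complex.conj_ofReal, Complex.conj_ofReal]
    push_cast
    ring_nf

lemma RK_int (s : Finset ℕ) (μ : ℕ → ℕ) (P : ℚ[X]) {b : ℕ} (hb : 3 ≤ b) :
    Integrable (fun y : ℝ => Rc s μ P y * KK b y) := by
  obtain ⟨C, hC, h⟩ := Rc_le s μ P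
  obtain ⟨C', hC', h'⟩ := KK_exp (b := b) (by omega)
  have hcont : AEStronglyMeasurable (KK b) volume := by
    have hmeas : Measurable (KK b) := by
      have hsum : ∀ y, HasSum (fun m : ℤ => li (hm m) y ^ b) (KK b y) := fun y =>
        (summable_li (by omega) y).hasSum
      refine measurable_of_tendsto_metrizable' (atTop : Filter (Finset ℤ))
        (f := fun (S : Finset ℤ) (y : ℝ) => ∑ m ∈ S, li (hm m) y ^ b) (fun S => ?_) ?_
      · refine Finset.measurable_fun_sum S fun m _ => ?_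
        exact ((li_continuous (hm_ne m)).pow b).measurable
      · rw [tendsto_pi_nhds]
        intro y
        exact hsum y
    exact hmeas.aestronglyMeasurable
  refine Integrable.mono' (integrable_inv_one_add_sq.const_mul (C * (C' * 1)))
    ((Rc_continuous s μ P).aestronglyMeasurable.mul hcont) (Eventually.of_forall fun y => ?_)
  rw [norm_mul]
  have h1 := h y
  have h2 := h' y
  -- `e^{-2π|y|} ≤ (√(1+y²))⁻¹`
  have h3 : Real.exp (-(2 * Real.pi * |y|)) ≤ (Real.sqrt (1 + y ^ 2))⁻¹ := by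
    rw [Real.exp_neg]
    apply inv_anti₀ (Real.sqrt_pos.2 (by positivity))
    rw [Real.sqrt_le_left (Real.exp_pos _).le]
    have h4 : 1 + |y| ≤ Real.exp (2 * Real.pi * |y|) := by
      have h5 := Real.add_one_le_exp (2 * Real.pi * |y|)
      have h6 : |y| ≤ 2 * Real.pi * |y| := by nlinarith [abs_nonneg y, Real.pi_gt_three]
      linarith
    have h7 : (1 + |y|) ^ 2 ≤ Real.exp (2 * Real.pi * |y|) ^ 2 :=
      pow_le_pow_left₀ (by positivity) h4 2
    refine le_trans ?_ h7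
    have h8 : |y| ^ 2 = y ^ 2 := sq_abs y
    nlinarith [abs_nonneg y]
  calc ‖Rc s μ P y‖ * ‖KK b y‖ ≤ (C * (Real.sqrt (1 + y ^ 2))⁻¹) *
        (C' * Real.exp (-(2 * Real.pi * |y|))) := by gcongr
    _ ≤ (C * (Real.sqrt (1 + y ^ 2))⁻¹) * (C' * (Real.sqrt (1 + y ^ 2))⁻¹) := by gcongr
    _ = C * (C' * 1) * ((Real.sqrt (1 + y ^ 2))⁻¹ * (Real.sqrt (1 + y ^ 2))⁻¹) := by ring
    _ = _ := by rw [← mul_inv, Real.mul_self_sqrt (by positivity)]

lemma half (s : Finset ℕ) (μ : ℕ → ℕ) (P : ℚ[X]) {b : ℕ} (hb : 3 ≤ b) :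
    ‖∫ y : ℝ, Rc s μ P y * KK b y‖ ≤ 2 * ‖∫ y in Set.Ioi (0 : ℝ), Rc s μ P y * KK b y‖ := by
  have hint := RK_int s μ P hb
  have h1 : ∫ y : ℝ, Rc s μ P y * KK b y =
      (∫ y in Set.Iic (0 : ℝ), Rc s μ P y * KK b y) +
        ∫ y in Set.Ioi (0 : ℝ), Rc s μ P y * KK b y :=
    (intervalIntegral.integral_Iic_add_Ioi hint.integrableOn hint.integrableOn).symm
  have h2 : (∫ y in Set.Iic (0 : ℝ), Rc s μ P y * KK b y) =
      (starRingEnd ℂ) (∫ y in Set.Ioi (0 : ℝ), Rc s μ P y * KK b y) := by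
    rw [← integral_conj]
    have h3 := integral_comp_neg_Ioi (0 : ℝ) (fun y => Rc s μ P y * KK b y)
    rw [neg_zero] at h3
    rw [← h3]
    refine integral_congr_ae (Eventually.of_forall fun y => ?_)
    simp only
    rw [Rc_neg, KK_neg, map_mul]
  rw [h1, h2]
  refine (norm_add_le _ _).trans ?_
  rw [RCLike.norm_conj]
  linarith

end V1

open V1 in
/-- rotation of the contour (general) -/
theorem V1_rot {b : ℕ} (hb : 3 ≤ b) : ∃ C : ℝ, 0 < C ∧ ∀ (s : Finset ℕ) (μ : ℕ → ℕ) (P : ℚ[X]),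
    P.degree < (QQ s μ).degree → (∀ k ∈ s, 1 ≤ k) → ∀ F : ℝ,
    HasSum (fun t : ℕ => ((PowerSeries.coeff (b - 1) (RS s μ P (t : ℚ)) : ℚ) : ℝ)) F → ∀ B : ℝ,
    (∀ r : ℝ, 0 ≤ r → ‖aeval (zv 0 r) P / aeval (zv 0 r) (QQ s μ)‖ * Real.exp (-(2 * Real.pi * r)) ≤
      B * (1 + r ^ 2)⁻¹) → |F| ≤ C * B := by
  obtain ⟨C, hC, hCK⟩ := KZ_exp (b := b) (by omega)
  refine ⟨2 * C, by positivity, fun s μ P hdeg hs F hF B hB => ?_⟩
  have hπ := Real.pi_pos
  have hB0 : 0 ≤ B := by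
    have := hB 0 le_rfl
    have h1 : 0 ≤ ‖aeval (zv 0 0) P / aeval (zv 0 0) (QQ s μ)‖ * Real.exp (-(2 * Real.pi * 0)) := by
      positivity
    have h2 := h1.trans this
    norm_num at h2
    exact h2
  have h1 := F_integral s μ P hdeg hs hb F hF
  have h2 := half s μ P hb
  have h3 := rot_sum s μ P hs hb
  have h4 : ‖∫ r in Set.Ioi (0 : ℝ), Rz s μ P (zv 0 r) * KZ b (zv 0 r)‖ ≤ C * B * Real.pi := by
    have h5 : ‖∫ r in Set.Ioi (0 : ℝ), Rz s μ P (zv 0 r) * KZ b (zv 0 r)‖ ≤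
        ∫ r in Set.Ioi (0 : ℝ), (C * B) * (1 + r ^ 2)⁻¹ := by
      refine norm_integral_le_of_norm_le (integrable_inv_one_add_sq.const_mul _).integrableOn
        (ae_restrict_of_forall_mem measurableSet_Ioi fun r hr => ?_)
      have hr0 : 0 ≤ r := le_of_lt hr
      have hne : ∀ k ∈ s, zv 0 r + k ≠ 0 := fun k _ => region' (zv_region r hr0) k
      rw [norm_mul, Rz_eq s μ P hdeg _ hne]
      calc _ ≤ ‖aeval (zv 0 r) P / aeval (zv 0 r) (QQ s μ)‖ *
            (C * Real.exp (-(2 * Real.pi * r))) :=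
            mul_le_mul_of_nonneg_left (hCK r hr0) (norm_nonneg _)
        _ = C * (‖aeval (zv 0 r) P / aeval (zv 0 r) (QQ s μ)‖ *
            Real.exp (-(2 * Real.pi * r))) := by ring
        _ ≤ C * (B * (1 + r ^ 2)⁻¹) := mul_le_mul_of_nonneg_left (hB r hr0) hC.le
        _ = _ := by ring
    refine h5.trans ?_
    have h6 : ∫ r in Set.Ioi (0 : ℝ), (C * B) * (1 + r ^ 2)⁻¹ ≤
        ∫ r : ℝ, (C * B) * (1 + r ^ 2)⁻¹ :=
      setIntegral_le_integral (integrable_inv_one_add_sq.const_mul _)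
        (Eventually.of_forall fun r => by
          simp only [Pi.zero_apply]
          positivity)
    have h6' : ∫ r : ℝ, (C * B) * (1 + r ^ 2)⁻¹ = C * B * Real.pi := by
      rw [integral_const_mul, integral_univ_inv_one_add_sq]
    rw [h6'] at h6
    exact h6
  have h7 : ‖∫ y in Set.Ioi (0 : ℝ), Rc s μ P y * KK b y‖ ≤ 2 * (C * B * Real.pi) := by
    have h8 := congrArg norm h3
    rw [norm_mul, norm_mul, Complex.norm_I, mul_one] at h8
    rw [h8]
    have h9 : ‖(1 : ℂ) + I‖ ≤ 2 := by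
      refine (norm_add_le _ _).trans ?_
      rw [norm_one, Complex.norm_I]
      norm_num
    calc _ ≤ (C * B * Real.pi) * 2 := mul_le_mul h4 h9 (norm_nonneg _) (by positivity)
      _ = _ := by ring
  rw [h1, norm_mul, norm_neg, norm_mul, Complex.norm_ofNat, Complex.norm_real, Complex.norm_real,
    Real.norm_of_nonneg hπ.le, Real.norm_eq_abs] at h2
  have h10 : 2 * Real.pi * |F| ≤ 2 * (2 * (C * B * Real.pi)) := by linarith
  have h11 : |F| * (2 * Real.pi) ≤ (2 * C * B) * (2 * Real.pi) := by linarith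
  exact le_of_mul_le_mul_right h11 (by positivity)

end

end Pool.Agent.H343Z
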