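import Pool.Agent.H343Z.Defs

/-!
# Definitions for the archimedean part

`n = 24 N + 1`, contour `t = U - 1/2 + r (1 + i)`, `r ≥ 0`, with `U = 0` or `U = 24 N`.
-/

open Polynomial Pool.Agent.H337R2

namespace Pool.Agent.H343Z

noncomputable section

/-- the point on the slanted contour -/
def zv (U : ℕ) (r : ℝ) : ℂ := (((U : ℝ) - 1 / 2 : ℝ) : ℂ) + (r : ℂ) * (1 + Complex.I)

/-- `R` at the point `z` -/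
def Rv (n : ℕ) (z : ℂ) : ℂ := aeval z (PPn n) / aeval z (QQ (sN n) (muN n))

/-- `x(z)` -/
def xv (n : ℕ) (z : ℂ) : ℂ := z * (z + ((18 * n : ℕ) : ℂ))

/-- `x(u)` at the node `u` -/
def xq (n u : ℕ) : ℚ := ((u * (u + 18 * n) : ℕ) : ℚ)

/-- zeros of order `5` at the first `24 N` nodes -/
def MU (N : ℕ) : ℚ[X] := ∏ u ∈ Finset.range (24 * N), (X - C (xq (24 * N + 1) u)) ^ 5

/-- `|w + ρ(1+i)|²` -/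
def qd (w ρ : ℝ) : ℝ := (w + ρ) ^ 2 + ρ ^ 2

def GZ0 (ρ : ℝ) : ℝ :=
  (∏ a ∈ Finset.range 48, qd ((a : ℕ) + 1 / 2) ρ) ^ 5 * (∏ a ∈ Finset.Ico (384 : ℕ) 432, qd ((a : ℕ) + 1 / 2) ρ) ^ 5

def GP0 (ρ : ℝ) : ℝ :=
  qd 72 ρ ^ 5 * (∏ a ∈ Finset.Ico (73 : ℕ) 360, qd ((a : ℕ) : ℝ) ρ) ^ 10 * qd 360 ρ ^ 5

def GZ1 (ρ : ℝ) : ℝ :=
  (∏ a ∈ Finset.Ico (24 : ℕ) 72, qd ((a : ℕ) + 1 / 2) ρ) ^ 5 * (∏ a ∈ Finset.Ico (408 : ℕ) 456, qd ((a : ℕ) + 1 / 2) ρ) ^ 5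

def GZ2 (ρ : ℝ) : ℝ :=
  (∏ a ∈ Finset.range 24, qd ((a : ℕ) + 1 / 2) ρ) ^ 10 * GZ1 ρ * (∏ a ∈ Finset.Ico (456 : ℕ) 480, qd ((a : ℕ) + 1 / 2) ρ) ^ 10

def GP1 (ρ : ℝ) : ℝ :=
  qd 96 ρ ^ 5 * (∏ a ∈ Finset.Ico (97 : ℕ) 384, qd ((a : ℕ) : ℝ) ρ) ^ 10 * qd 384 ρ ^ 5

/-- logarithm of the constant `((12n)!/(2n)!)^20`, per `N`, in units of `N` -/
def Lam : ℝ := 5760 * Real.log 288 - 960 * Real.log 48 - 4800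

/-- atom: the polynomial with zeros `x(z)`, `x(conj z)` for `z = N (a + i b) - 1/2` -/
def qa (N : ℕ) (a b : ℚ) : ℚ[X] :=
  (X - C (((N : ℚ) * a - 1 / 2) * ((N : ℚ) * a - 1 / 2 + 18 * (24 * (N : ℚ) + 1)) - ((N : ℚ) * b) ^ 2)) ^ 2 +
    C (((N : ℚ) * b * (2 * ((N : ℚ) * a - 1 / 2) + 18 * (24 * (N : ℚ) + 1))) ^ 2)

/-- `|q|²` on the contour starting at `c` (scaled by `N`) -/
def Qb (c a b : ℚ) (ρ : ℝ) : ℝ :=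
  (((c : ℝ) + ρ - a) ^ 2 + (ρ - b) ^ 2) * (((c : ℝ) + ρ - a) ^ 2 + (ρ + b) ^ 2) *
  ((((c : ℝ) + 432 + ρ + a) ^ 2 + (ρ + b) ^ 2) * (((c : ℝ) + 432 + ρ + a) ^ 2 + (ρ - b) ^ 2))

end

end Pool.Agent.H343Z
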