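import Pool.Agent.H343Z.DefsG

/-!
# Data of the archimedean part: atoms, exponents, exponents of the bounds; the basis `P_i`
-/

open Polynomial Pool.Agent.H337R2

namespace Pool.Agent.H343Z

noncomputable section

/-- atoms of part 1 -/
def la1 : List (ℚ × ℚ) := [(4/5, 1/10), (57/10, 19/10), (121/5, 1/10), (109/10, 79/10), (13, 6), (88/5, 131/10)]

/-- exponents of part 1 (4 stages, 6 atoms, each stage of total exponent 15) -/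
def ls1 : List (List ℕ) := [
   [3, 12, 0, 0, 0, 0],
   [2, 2, 1, 6, 4, 0],
   [2, 0, 2, 3, 2, 6],
   [1, 0, 0, 0, 0, 14]]

/-- bounds of part 1: powers of two, shifted by `38000` -/
def lt1 : List ℕ := [229, 1516, 2949, 4448, 6002]

/-- atoms of part 2 -/
def la2 : List (ℚ × ℚ) := [(287/10, 6/5), (32, 23/5), (179/5, 89/10), (199/5, 147/10), (224/5, 183/10), (97/2, 116/5), (264/5, 269/10), (56, 158/5), (123/2, 36), (677/10, 421/10), (733/10, 241/5), (801/10, 551/10), (857/10, 611/10), (467/5, 137/2), (511/5, 155/2), (552/5, 431/5), (241/2, 481/5), (1319/10, 536/5), (1433/10, 1189/10), (321/2, 1359/10)]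

/-- exponents of part 2 (10 stages, 20 atoms, each stage of total exponent 24) -/
def ls2 : List (List ℕ) := [
   [0, 3, 9, 5, 4, 3, 0, 0, 0, 0, 0, 0, 0, 0, 0, 0, 0, 0, 0, 0],
   [1, 4, 0, 3, 2, 3, 4, 5, 2, 0, 0, 0, 0, 0, 0, 0, 0, 0, 0, 0],
   [1, 2, 2, 1, 2, 1, 1, 1, 5, 6, 2, 0, 0, 0, 0, 0, 0, 0, 0, 0],
   [3, 0, 0, 1, 0, 2, 3, 0, 2, 2, 4, 6, 1, 0, 0, 0, 0, 0, 0, 0],
   [1, 0, 3, 0, 1, 0, 1, 0, 3, 0, 2, 2, 4, 7, 0, 0, 0, 0, 0, 0],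
   [2, 0, 0, 1, 1, 0, 1, 1, 1, 0, 3, 0, 3, 2, 6, 3, 0, 0, 0, 0],
   [1, 0, 1, 0, 2, 0, 0, 0, 0, 3, 2, 1, 0, 2, 2, 4, 6, 0, 0, 0],
   [2, 0, 1, 0, 0, 1, 0, 0, 1, 0, 1, 0, 0, 2, 3, 1, 5, 5, 2, 0],
   [1, 0, 0, 1, 0, 1, 0, 0, 0, 3, 0, 0, 0, 3, 1, 1, 1, 2, 8, 2],
   [1, 0, 1, 0, 0, 0, 0, 1, 1, 0, 0, 1, 1, 0, 2, 1, 1, 1, 4, 9]]

/-- bounds of part 2: powers of two, shifted by `38000` -/
def lt2 : List ℕ := [5932, 8353, 10935, 13616, 16371, 19186, 22059, 24983, 27957, 30977, 34039]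

abbrev at1 (k : ℕ) : ℚ × ℚ := la1.getD k (0, 0)
abbrev at2 (k : ℕ) : ℚ × ℚ := la2.getD k (0, 0)
abbrev sg1 (s k : ℕ) : ℕ := (ls1.getD s []).getD k 0
abbrev sg2 (s k : ℕ) : ℕ := (ls2.getD s []).getD k 0
abbrev t1 (s : ℕ) : ℕ := lt1.getD s 0
abbrev t2 (s : ℕ) : ℕ := lt2.getD s 0

/-- stage polynomial of part 1, degree `30` -/
def C1 (N s : ℕ) : ℚ[X] := ∏ k ∈ Finset.range 6, qa N (at1 k).1 (at1 k).2 ^ sg1 s k

/-- stage polynomial of part 2, degree `48` -/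
def C2 (N s : ℕ) : ℚ[X] := ∏ k ∈ Finset.range 20, qa N (at2 k).1 (at2 k).2 ^ sg2 s k

/-- `∏ |q|^(4 σ)` of stage `s`, part 1, on the contour starting at `c` -/
def Q1 (c : ℚ) (s : ℕ) (ρ : ℝ) : ℝ := ∏ k ∈ Finset.range 6, Qb c (at1 k).1 (at1 k).2 ρ ^ (2 * sg1 s k)

/-- `∏ |q|^(4 σ)` of stage `s`, part 2 (contour starting at `24`) -/
def Q2 (s : ℕ) (ρ : ℝ) : ℝ := ∏ k ∈ Finset.range 20, Qb 24 (at2 k).1 (at2 k).2 ρ ^ (2 * sg2 s k)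

/-- number of factors `C1 N s` in `P_i` -/
def e1 (N i s : ℕ) : ℕ := min N ((i - 30 * N * s) / 30)

/-- number of factors `C2 N s` in `P_(120N+i)` -/
def e2 (N i s : ℕ) : ℕ := min N ((i - 48 * N * s) / 48)

/-- `P_i` for `i < 120 N` -/
def P1 (N i : ℕ) : ℚ[X] := (∏ s ∈ Finset.range 4, C1 N s ^ e1 N i s) * X ^ (i % 30)

/-- `P_(120N+i) = MU * P2 i`, for `i < 480 N` -/
def P2 (N i : ℕ) : ℚ[X] := (∏ s ∈ Finset.range 10, C2 N s ^ e2 N i s) * X ^ (i % 48)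

/-- the basis -/
def PN (N i : ℕ) : ℚ[X] := if i < 120 * N then P1 N i else MU N * P2 N (i - 120 * N)

/-- exponent of two in the bound, times two, shifted by `38000 N` -/
def EX (N i : ℕ) : ℕ :=
  if i < 120 * N then t1 0 * N + ∑ s ∈ Finset.range 4, (t1 (s + 1) - t1 s) * e1 N i s
  else t2 0 * N + ∑ s ∈ Finset.range 10, (t2 (s + 1) - t2 s) * e2 N (i - 120 * N) s

/-- the constant of the archimedean bound -/
def JJ : ℝ := (300 * Lam + (Real.log 2 / 2) * (9693135 - 600 * 38000)) / 576 - 1250 * Real.log 24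

end

end Pool.Agent.H343Z
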