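import Pool.Agent.H343Z.E3Com

/-! Task E3A. -/

open Polynomial Pool.Agent.H337R2

namespace Pool.Agent.H343Z

noncomputable section

theorem E3_A : ∃ K0 : ℝ, ∀ n p : ℕ, p.Prime → 7 ≤ n → n < 20 * p → p < 2 * n → 18 * n < p ^ 2 → ∀ μ : ℤ,
    μ = 5 - (10 * ((12 * n / p : ℕ) : ℤ) - 10 * ((2 * n / p : ℕ) : ℤ)) →
    ((((25 * (n - 1) : ℕ) : ℤ) * μ + ∑ κ ∈ Kset n p, TT (4 - eeN p n κ - μ) : ℤ) : ℝ) ≤ EA n p + K0 := by
  refine ⟨10 ^ 7, ?_⟩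
  intro n p hp hn hpn hp2n hp2 μ hμ
  have hb := E3_bound hp hn hpn (by omega) hp2 μ hμ
  have hn1 : 1 ≤ n := by omega
  have hP := E3_P2 hn1 hp hpn
  have h1 := E3_z1 hn1 hp hpn
  have h2 := E3_z2 hn1 hp hpn
  have h12 := E3_z12 hn1 hp hpn
  have hPz := E3_Pz hn1 hp hpn
  have hsum : ((∑ r ∈ Finset.range p, TT ((10 * (cP n p r : ℤ) - 5 * ((cz1 n p r : ℤ) + cz2 n p r)) - 1) : ℤ) : ℝ) ≤
      25 * ∑ r ∈ Finset.range p, (cP n p r : ℝ) ^ 2 - 25 * ∑ r ∈ Finset.range p, (cP n p r : ℝ) * (cz1 n p r + cz2 n p r)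
      + 25 / 4 * (∑ r ∈ Finset.range p, (cz1 n p r : ℝ) ^ 2 + ∑ r ∈ Finset.range p, (cz2 n p r : ℝ) ^ 2
        + 2 * ∑ r ∈ Finset.range p, (cz1 n p r : ℝ) * cz2 n p r) := by
    push_cast
    have : ∀ r ∈ Finset.range p, ((TT ((10 * (cP n p r : ℤ) - 5 * ((cz1 n p r : ℤ) + cz2 n p r)) - 1) : ℤ) : ℝ) ≤
        25 * (cP n p r : ℝ) ^ 2 - 25 * ((cP n p r : ℝ) * (cz1 n p r + cz2 n p r)) +
        25 / 4 * ((cz1 n p r : ℝ) ^ 2 + (cz2 n p r : ℝ) ^ 2 + 2 * ((cz1 n p r : ℝ) * cz2 n p r)) := by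
      intro r _
      have h3 := H336R2.HD.E3_TT_le (10 * (cP n p r : ℤ) - 5 * ((cz1 n p r : ℤ) + cz2 n p r))
      have h4 : ((TT ((10 * (cP n p r : ℤ) - 5 * ((cz1 n p r : ℤ) + cz2 n p r)) - 1) : ℤ) : ℝ) ≤
          (((10 * (cP n p r : ℤ) - 5 * ((cz1 n p r : ℤ) + cz2 n p r)) ^ 2 / 4 : ℤ) : ℝ) := by
        exact_mod_cast h3
      have h5 : (((10 * (cP n p r : ℤ) - 5 * ((cz1 n p r : ℤ) + cz2 n p r)) ^ 2 / 4 : ℤ) : ℝ) * 4 ≤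
          (((10 * (cP n p r : ℤ) - 5 * ((cz1 n p r : ℤ) + cz2 n p r)) ^ 2 : ℤ) : ℝ) := by
        exact_mod_cast Int.ediv_mul_le _ (by norm_num : (4 : ℤ) ≠ 0)
      have h6 : (((10 * (cP n p r : ℤ) - 5 * ((cz1 n p r : ℤ) + cz2 n p r)) ^ 2 : ℤ) : ℝ) =
          (10 * (cP n p r : ℝ) - 5 * ((cz1 n p r : ℝ) + cz2 n p r)) ^ 2 := by
        push_cast
        ring
      rw [h6] at h5
      refine h4.trans ?_
      nlinarith [h5]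
    refine (Finset.sum_le_sum this).trans (le_of_eq ?_)
    simp only [Finset.sum_add_distrib, Finset.sum_sub_distrib, ← Finset.mul_sum]
  have hbR : 2 * ((∑ κ ∈ Kset n p, TT (4 - eeN p n κ - μ) : ℤ) : ℝ) ≤
      ((∑ r ∈ Finset.range p, TT ((10 * (cP n p r : ℤ) - 5 * ((cz1 n p r : ℤ) + cz2 n p r)) - 1) : ℤ) : ℝ) + 2410 ^ 2 := by
    exact_mod_cast hb
  have ha : ((12 * n / p : ℕ) : ℝ) ≤ 240 := by
    have : 12 * n / p ≤ 240 := by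
      apply Nat.div_le_of_le_mul
      nlinarith
    exact_mod_cast this
  have hb0 : (0 : ℝ) ≤ ((2 * n / p : ℕ) : ℝ) := by positivity
  have h6 : ((25 * (n - 1) : ℕ) : ℝ) = 25 * n - 25 := by
    rw [Nat.cast_mul, Nat.cast_sub (by omega)]
    push_cast
    ring
  have hμR : (μ : ℝ) = 5 - (10 * ((12 * n / p : ℕ) : ℝ) - 10 * ((2 * n / p : ℕ) : ℝ)) := by
    rw [hμ]
    simp only [Int.cast_sub, Int.cast_mul, Int.cast_natCast, Int.cast_ofNat]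
  unfold EA
  rw [Int.cast_add, Int.cast_mul, Int.cast_natCast, h6, hμR]
  set a : ℝ := ((12 * n / p : ℕ) : ℝ)
  set b : ℝ := ((2 * n / p : ℕ) : ℝ)
  have e1 : (25 * (n : ℝ) - 25) * (5 - (10 * a - 10 * b)) =
      125 * n - 250 * n * a + 250 * n * b - 125 + 250 * a - 250 * b := by
    ring
  rw [e1]
  linarith

end

end Pool.Agent.H343Z
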