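import Pool.Agent.H343Z.Defs
import Pool.Agent.H336R2.HD.F1

/-! Task F1: sums over primes `lo n < p < hi n` from the prime number theorem. -/

open Filter Topology Finset

namespace Pool.Agent.H343Z

namespace F1

open Pool.Agent.H336R2.HD (theta_sub_le theta_tendsto pw sum_pw pw_nonneg log_div_tendsto sum_one
  sum_id integral_theta)

/-- comparison of `PS` with a half open interval -/
lemma PS_sum (f : ℕ → ℝ) (hf : ∀ k, 0 ≤ f k) (a b : ℝ) (ha : 0 ≤ a) (hab : a ≤ b) (hb : b ≤ 50)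
    (n : ℕ) (hn : 1 ≤ n) :
    ∑ k ∈ Ioc ⌊a * n⌋₊ ⌊b * n⌋₊, f k * pw k - f ⌊b * n⌋₊ * pw ⌊b * n⌋₊ ≤
      ∑ p ∈ PS a b n, f p * Real.log p ∧
    ∑ p ∈ PS a b n, f p * Real.log p ≤ ∑ k ∈ Ioc ⌊a * n⌋₊ ⌊b * n⌋₊, f k * pw k := by
  classical
  have hn0 : (0 : ℝ) < n := by exact_mod_cast hn
  have hPS : ∀ p, p ∈ PS a b n ↔ p.Prime ∧ a * n < p ∧ (p : ℝ) < b * n := by
    intro p
    unfold PS
    rw [mem_filter, mem_range]
    refine ⟨fun h => h.2, fun h => ⟨?_, h⟩⟩
    have h1 : (p : ℝ) < 51 * n := by nlinarith [h.2.2]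
    exact_mod_cast h1
  have hIoc : ∀ k, k ∈ Ioc ⌊a * n⌋₊ ⌊b * n⌋₊ ↔ a * n < k ∧ (k : ℝ) ≤ b * n := by
    intro k
    rw [mem_Ioc, Nat.floor_lt (by positivity), Nat.le_floor_iff (by nlinarith)]
  have hsub : PS a b n ⊆ Ioc ⌊a * n⌋₊ ⌊b * n⌋₊ := by
    intro p hp
    rw [hPS] at hp
    rw [hIoc]
    exact ⟨hp.2.1, hp.2.2.le⟩
  have e1 : ∑ p ∈ PS a b n, f p * Real.log p = ∑ p ∈ PS a b n, f p * pw p := by
    apply sum_congr rfl
    intro p hp
    rw [hPS] at hp
    unfold pw
    rw [if_pos hp.1]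
  constructor
  · rw [e1]
    have h1 : ∑ k ∈ Ioc ⌊a * n⌋₊ ⌊b * n⌋₊, f k * pw k ≤
        ∑ k ∈ insert ⌊b * n⌋₊ (PS a b n), f k * pw k + 0 := by
      rw [add_zero]
      have h2 : ∑ k ∈ Ioc ⌊a * n⌋₊ ⌊b * n⌋₊, f k * pw k =
          ∑ k ∈ (Ioc ⌊a * n⌋₊ ⌊b * n⌋₊).filter Nat.Prime, f k * pw k := by
        rw [sum_filter]
        apply sum_congr rfl
        intro k _
        unfold pw
        split_ifs <;> simp
      rw [h2]
      apply sum_le_sum_of_subset_of_nonneg
      · intro k hk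
        rw [mem_filter, hIoc] at hk
        rw [mem_insert, hPS]
        by_cases h : (k : ℝ) < b * n
        · exact Or.inr ⟨hk.2, hk.1.1, h⟩
        · left
          have h3 : (k : ℝ) = b * n := le_antisymm hk.1.2 (not_lt.1 h)
          rw [← h3, Nat.floor_natCast]
      · intro k _ _
        exact mul_nonneg (hf k) (pw_nonneg k)
    have h3 : ∑ k ∈ insert ⌊b * n⌋₊ (PS a b n), f k * pw k ≤
        f ⌊b * n⌋₊ * pw ⌊b * n⌋₊ + ∑ k ∈ PS a b n, f k * pw k := by
      by_cases h : ⌊b * n⌋₊ ∈ PS a b n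
      · rw [insert_eq_of_mem h]
        have := mul_nonneg (hf ⌊b * n⌋₊) (pw_nonneg ⌊b * n⌋₊)
        linarith
      · rw [sum_insert h]
    linarith
  · rw [e1]
    apply sum_le_sum_of_subset_of_nonneg hsub
    intro k _ _
    exact mul_nonneg (hf k) (pw_nonneg k)

lemma pw_floor_le (b : ℝ) (hb : 0 ≤ b) (hb2 : b ≤ 50) (n : ℕ) (hn : 1 ≤ n) :
    pw ⌊b * n⌋₊ ≤ Real.log (50 * n) := by
  have hn0 : (1 : ℝ) ≤ n := by exact_mod_cast hn
  unfold pw
  split_ifs with h
  · apply Real.log_le_log (by exact_mod_cast h.pos)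
    exact (Nat.floor_le (by positivity)).trans (by nlinarith)
  · exact Real.log_nonneg (by linarith)

/-- number of primes, weighted with `log p` -/
lemma S_tendsto (a b : ℝ) (ha : 0 < a) (hab : a ≤ b) (hb : b ≤ 50) :
    Tendsto (fun n : ℕ => (∑ p ∈ PS a b n, Real.log p) / (n : ℝ)) atTop (𝓝 (b - a)) := by
  have hu : Tendsto (fun n : ℕ => Chebyshev.theta (b * n) / (n : ℝ) -
      Chebyshev.theta (a * n) / (n : ℝ)) atTop (𝓝 (b - a)) :=
    (theta_tendsto b (by linarith)).sub (theta_tendsto a ha)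
  have hl : Tendsto (fun n : ℕ => Chebyshev.theta (b * n) / (n : ℝ) -
      Chebyshev.theta (a * n) / (n : ℝ) - Real.log (50 * n) / (n : ℝ)) atTop (𝓝 (b - a)) := by
    have := hu.sub (log_div_tendsto 50 (by norm_num))
    rwa [sub_zero] at this
  refine tendsto_of_tendsto_of_tendsto_of_le_of_le' hl hu ?_ ?_
  · filter_upwards [eventually_ge_atTop 1] with n hn
    have hn0 : (0 : ℝ) < n := by exact_mod_cast hn
    have h := (PS_sum (fun _ => 1) (fun _ => zero_le_one) a b ha.le hab hb n hn).1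
    rw [sum_one _ _ (by nlinarith)] at h
    have h2 := pw_floor_le b (by linarith) hb n hn
    rw [← sub_div, ← sub_div]
    apply div_le_div_of_nonneg_right _ hn0.le
    simp only [one_mul] at h
    linarith
  · filter_upwards [eventually_ge_atTop 1] with n hn
    have hn0 : (0 : ℝ) < n := by exact_mod_cast hn
    have h := (PS_sum (fun _ => 1) (fun _ => zero_le_one) a b ha.le hab hb n hn).2
    rw [sum_one _ _ (by nlinarith)] at h
    rw [← sub_div]
    apply div_le_div_of_nonneg_right _ hn0.le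
    simpa only [one_mul] using h

/-- `∑ p log p` -/
lemma M_tendsto (a b : ℝ) (ha : 0 < a) (hab : a ≤ b) (hb : b ≤ 50) :
    Tendsto (fun n : ℕ => (∑ p ∈ PS a b n, (p : ℝ) * Real.log p) / (n : ℝ) ^ 2) atTop
      (𝓝 ((b ^ 2 - a ^ 2) / 2)) := by
  have hb0 : 0 < b := by linarith
  have hu0 : Tendsto (fun n : ℕ => b * (Chebyshev.theta (b * n) / (n : ℝ)) -
      a * (Chebyshev.theta (a * n) / (n : ℝ)) -
      (∫ t in Set.Ioc (a * n) (b * n), Chebyshev.theta t) / (n : ℝ) ^ 2) atTop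
      (𝓝 (b * b - a * a - (b ^ 2 - a ^ 2) / 2)) :=
    (((theta_tendsto b hb0).const_mul b).sub ((theta_tendsto a ha).const_mul a)).sub
      (integral_theta a b ha hab)
  have hu : Tendsto (fun n : ℕ => (∑ k ∈ Ioc ⌊a * n⌋₊ ⌊b * n⌋₊, (k : ℝ) * pw k) / (n : ℝ) ^ 2)
      atTop (𝓝 ((b ^ 2 - a ^ 2) / 2)) := by
    rw [show b * b - a * a - (b ^ 2 - a ^ 2) / 2 = (b ^ 2 - a ^ 2) / 2 by ring] at hu0
    refine hu0.congr' ?_
    filter_upwards [eventually_ge_atTop 1] with n hn
    have hn0 : (0 : ℝ) < n := by exact_mod_cast hn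
    rw [sum_id _ _ (by positivity) (mul_le_mul_of_nonneg_right hab hn0.le)]
    field_simp
  have hl : Tendsto (fun n : ℕ => (∑ k ∈ Ioc ⌊a * n⌋₊ ⌊b * n⌋₊, (k : ℝ) * pw k) / (n : ℝ) ^ 2 -
      50 * (Real.log (50 * n) / (n : ℝ))) atTop (𝓝 ((b ^ 2 - a ^ 2) / 2)) := by
    have := hu.sub ((log_div_tendsto 50 (by norm_num)).const_mul 50)
    rwa [mul_zero, sub_zero] at this
  refine tendsto_of_tendsto_of_tendsto_of_le_of_le' hl hu ?_ ?_
  · filter_upwards [eventually_ge_atTop 1] with n hn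
    have hn0 : (0 : ℝ) < n := by exact_mod_cast hn
    have h := (PS_sum (fun k => (k : ℝ)) (fun _ => Nat.cast_nonneg _) a b ha.le hab hb n hn).1
    have h2 := pw_floor_le b hb0.le hb n hn
    have h3 : ((⌊b * n⌋₊ : ℕ) : ℝ) ≤ 50 * n :=
      (Nat.floor_le (by positivity)).trans (mul_le_mul_of_nonneg_right hb hn0.le)
    have h4 : ((⌊b * n⌋₊ : ℕ) : ℝ) * pw ⌊b * n⌋₊ ≤ 50 * n * Real.log (50 * n) :=
      mul_le_mul h3 h2 (pw_nonneg _) (by positivity)
    have h5 : 50 * (Real.log (50 * n) / (n : ℝ)) = 50 * n * Real.log (50 * n) / (n : ℝ) ^ 2 := by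
      field_simp
    rw [h5, ← sub_div]
    apply div_le_div_of_nonneg_right _ (by positivity)
    linarith
  · filter_upwards [eventually_ge_atTop 1] with n hn
    have h := (PS_sum (fun k => (k : ℝ)) (fun _ => Nat.cast_nonneg _) a b ha.le hab hb n hn).2
    exact div_le_div_of_nonneg_right h (by positivity)

end F1

open F1

theorem F1_const (lo hi : ℚ) (h0 : 0 < lo) (h1 : lo ≤ hi) (h2 : hi ≤ 50) :
    Tendsto (fun n : ℕ => (∑ p ∈ PS lo hi n, (n : ℝ) * Real.log p) / (n : ℝ) ^ 2) atTop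
      (𝓝 (((hi - lo : ℚ)) : ℝ)) := by
  have h := S_tendsto (lo : ℝ) (hi : ℝ) (by exact_mod_cast h0) (by exact_mod_cast h1)
    (by exact_mod_cast h2)
  rw [Rat.cast_sub]
  refine h.congr' ?_
  filter_upwards [eventually_ge_atTop 1] with n hn
  have hn0 : (n : ℝ) ≠ 0 := by exact_mod_cast (by omega : n ≠ 0)
  rw [← mul_sum]
  field_simp

theorem F1_tent (α j : ℕ) (hj : 1 ≤ j) (lo hi : ℚ) (h0 : 0 < lo) (h1 : lo ≤ hi) (h2 : hi ≤ 50) :
    Tendsto (fun n : ℕ => (∑ p ∈ PS lo hi n, tn (α * n) j p * Real.log p) / (n : ℝ) ^ 2) atTop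
      (𝓝 ((It α j lo hi : ℚ) : ℝ)) := by
  have hj0 : (0 : ℚ) < j := by exact_mod_cast hj
  have hj0' : (0 : ℝ) < j := by exact_mod_cast hj
  obtain ⟨c, hc⟩ : ∃ c : ℚ, c = max lo (min hi ((α : ℚ) / j)) := ⟨_, rfl⟩
  have hlc : lo ≤ c := by rw [hc]; exact le_max_left _ _
  have hch : c ≤ hi := by rw [hc]; exact max_le h1 (min_le_left _ _)
  have hIt : It α j lo hi = α * (c - lo) - j * (c ^ 2 - lo ^ 2) / 2 := by
    unfold It
    rw [← hc]
  have hlo' : (0 : ℝ) < (lo : ℝ) := by exact_mod_cast h0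
  have hlc' : (lo : ℝ) ≤ (c : ℝ) := by exact_mod_cast hlc
  have hch' : (c : ℝ) ≤ (hi : ℝ) := by exact_mod_cast hch
  have h2' : (hi : ℝ) ≤ 50 := by exact_mod_cast h2
  have hS := (S_tendsto (lo : ℝ) (c : ℝ) hlo' hlc' (hch'.trans h2')).const_mul (α : ℝ)
  have hM := (M_tendsto (lo : ℝ) (c : ℝ) hlo' hlc' (hch'.trans h2')).const_mul (j : ℝ)
  have h3 := hS.sub hM
  have e1 : ((It α j lo hi : ℚ) : ℝ) = (α : ℝ) * ((c : ℝ) - lo) - j * (((c : ℝ) ^ 2 - (lo : ℝ) ^ 2) / 2) := by
    rw [hIt]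
    push_cast
    ring
  rw [e1]
  refine h3.congr' ?_
  filter_upwards [eventually_ge_atTop 1] with n hn
  have hn0 : (0 : ℝ) < n := by exact_mod_cast hn
  classical
  have hPS : ∀ (a b : ℝ), b ≤ 50 → ∀ p, p ∈ PS a b n ↔ p.Prime ∧ a * n < p ∧ (p : ℝ) < b * n := by
    intro a b hb p
    unfold PS
    rw [mem_filter, mem_range]
    refine ⟨fun h => h.2, fun h => ⟨?_, h⟩⟩
    have h1 : (p : ℝ) < 51 * n := by nlinarith [h.2.2]
    exact_mod_cast h1
  have key : ∑ p ∈ PS lo hi n, tn (α * n) j p * Real.log p =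
      ∑ p ∈ PS lo c n, ((α : ℝ) * n - j * p) * Real.log p := by
    have hsub : PS (lo : ℝ) (c : ℝ) n ⊆ PS (lo : ℝ) (hi : ℝ) n := by
      intro p hp
      rw [hPS _ _ (hch'.trans h2')] at hp
      rw [hPS _ _ h2']
      exact ⟨hp.1, hp.2.1, lt_of_lt_of_le hp.2.2 (mul_le_mul_of_nonneg_right hch' hn0.le)⟩
    rw [← sum_subset hsub]
    · apply sum_congr rfl
      intro p hp
      rw [hPS _ _ (hch'.trans h2')] at hp
      congr 1
      unfold tn
      have hcα : (c : ℝ) * n ≤ (α : ℝ) * n / j := by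
        -- since `lo * n < p < c * n`, `c > lo`, hence `c ≤ α / j`
        have hlt : (lo : ℝ) < c := by
          have := hp.2.1.trans hp.2.2
          exact lt_of_mul_lt_mul_right this hn0.le
        have hlt' : lo < c := by exact_mod_cast hlt
        have : c ≤ (α : ℚ) / j := by
          by_contra hcon
          rw [not_le] at hcon
          have : c = lo ∨ c = min hi ((α : ℚ) / j) := by
            rw [hc]
            rcases le_total lo (min hi ((α : ℚ) / j)) with h | h
            · right; exact max_eq_right h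
            · left; exact max_eq_left h
          rcases this with h | h
          · exact absurd h hlt'.ne'
          · rw [h] at hcon
            exact absurd (min_le_right hi ((α : ℚ) / j)) (not_le.2 hcon)
        have h' : (c : ℝ) ≤ (α : ℝ) / j := by
          have h9 := (Rat.cast_le (K := ℝ)).2 this
          push_cast at h9
          exact h9
        calc (c : ℝ) * n ≤ (α : ℝ) / j * n := mul_le_mul_of_nonneg_right h' hn0.le
          _ = (α : ℝ) * n / j := by ring
      have hjp : (j : ℝ) * p ≤ α * n := by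
        have h3 : (p : ℝ) ≤ (α : ℝ) * n / j := hp.2.2.le.trans hcα
        rw [le_div_iff₀ hj0'] at h3
        linarith
      have hjp' : j * p ≤ α * n := by exact_mod_cast hjp
      rw [Nat.cast_sub hjp']
      push_cast
      ring
    · intro p hp hp'
      rw [hPS _ _ h2'] at hp
      rw [hPS _ _ (hch'.trans h2')] at hp'
      have hpc : (c : ℝ) * n ≤ p := by
        by_contra hcon
        exact hp' ⟨hp.1, hp.2.1, not_le.1 hcon⟩
      have hcα : (α : ℝ) / j ≤ c := by
        have hlt : (c : ℝ) < hi := by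
          have := lt_of_le_of_lt hpc hp.2.2
          exact lt_of_mul_lt_mul_right this hn0.le
        have hlt' : c < hi := by exact_mod_cast hlt
        have : (α : ℚ) / j ≤ c := by
          by_contra hcon
          rw [not_le] at hcon
          have h4 : min hi ((α : ℚ) / j) ≤ c := by rw [hc]; exact le_max_right _ _
          rcases le_total hi ((α : ℚ) / j) with h | h
          · rw [min_eq_left h] at h4
            exact absurd h4 (not_le.2 hlt')
          · rw [min_eq_right h] at h4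
            exact absurd h4 (not_le.2 hcon)
        have h9 := (Rat.cast_le (K := ℝ)).2 this
        push_cast at h9
        exact h9
      have h5 : (α : ℝ) * n ≤ j * p := by
        rw [div_le_iff₀ hj0'] at hcα
        have h6 : (α : ℝ) * n ≤ c * j * n := mul_le_mul_of_nonneg_right hcα hn0.le
        have h7 : (c : ℝ) * n * j ≤ p * j := mul_le_mul_of_nonneg_right hpc hj0'.le
        linarith
      have h6 : α * n ≤ j * p := by exact_mod_cast h5
      unfold tn
      rw [Nat.sub_eq_zero_of_le h6]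
      simp
  rw [key]
  have e2 : ∑ p ∈ PS (lo : ℝ) (c : ℝ) n, ((α : ℝ) * n - j * p) * Real.log p =
      α * n * ∑ p ∈ PS (lo : ℝ) (c : ℝ) n, Real.log p -
        j * ∑ p ∈ PS (lo : ℝ) (c : ℝ) n, (p : ℝ) * Real.log p := by
    rw [mul_sum, mul_sum, ← sum_sub_distrib]
    apply sum_congr rfl
    intro p _
    ring
  rw [e2]
  field_simp


noncomputable section

namespace F1f

theorem mem_PS (lo hi : ℝ) (n p : ℕ) :
    p ∈ PS lo hi n ↔ p < 51 * n ∧ p.Prime ∧ lo * n < p ∧ (p : ℝ) < hi * n := by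
  unfold PS
  rw [Finset.mem_filter, Finset.mem_range]

theorem floor_sum (α n p : ℕ) (hα : α ≤ 50) (hp : 0 < p) (hn : n < 20 * p) :
    ((α * n / p : ℕ) : ℝ) = ∑ j ∈ J, if j * p ≤ α * n then (1 : ℝ) else 0 := by
  have h1 : α * n / p ≤ 1000 := by
    have h2 : α * n ≤ 50 * n := Nat.mul_le_mul_right _ hα
    have h3 : α * n < p * 1000 := by omega
    exact (Nat.div_lt_of_lt_mul h3).le
  rw [Finset.sum_ite, Finset.sum_const_zero, add_zero, Finset.sum_const, nsmul_eq_mul, mul_one]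
  have h4 : (J.filter fun j => j * p ≤ α * n) = Finset.Icc 1 (α * n / p) := by
    ext j
    simp only [Finset.mem_filter, Finset.mem_Icc]
    rw [← Nat.le_div_iff_mul_le hp]
    constructor
    · rintro ⟨⟨h5, _⟩, h6⟩; exact ⟨h5, h6⟩
    · rintro ⟨h5, h6⟩; exact ⟨⟨h5, by omega⟩, h6⟩
  rw [h4, Nat.card_Icc]
  simp

theorem log_div_tendsto51 : Tendsto (fun n : ℕ => Real.log (51 * n) / (n : ℝ)) atTop (𝓝 0) := by
  have h1 := Real.tendsto_pow_log_div_mul_add_atTop (1 / 51 : ℝ) 0 1 (by norm_num)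
  have h2 : Tendsto (fun n : ℕ => (51 : ℝ) * n) atTop atTop :=
    tendsto_natCast_atTop_atTop.const_mul_atTop (by norm_num)
  have h3 := h1.comp h2
  refine h3.congr ?_
  intro n
  simp only [Function.comp, pow_one, add_zero]
  congr 1
  ring

variable (hF : ∀ (lo hi : ℚ), 0 < lo → lo ≤ hi → hi ≤ 50 →
    Tendsto (fun n : ℕ => (∑ p ∈ PS lo hi n, (n : ℝ) * Real.log p) / (n : ℝ) ^ 2) atTop
      (𝓝 (((hi - lo : ℚ)) : ℝ)))

include hF

theorem one_j (α j : ℕ) (hα : α ≤ 50) (hj : 1 ≤ j) (lo hi : ℚ) (h0 : 0 < lo) (h1 : lo ≤ hi)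
    (h2 : hi ≤ 50) :
    Tendsto (fun n : ℕ => (∑ p ∈ PS lo hi n, if j * p ≤ α * n then (n : ℝ) * Real.log p else 0) /
      (n : ℝ) ^ 2) atTop (𝓝 ((max lo (min hi ((α : ℚ) / j)) - lo : ℚ) : ℝ)) := by
  classical
  obtain ⟨c, hc⟩ : ∃ c : ℚ, c = max lo (min hi ((α : ℚ) / j)) := ⟨_, rfl⟩
  have hclo : lo ≤ c := by rw [hc]; exact le_max_left _ _
  have hchi : c ≤ hi := by rw [hc]; exact max_le h1 (min_le_left _ _)
  rw [← hc]
  have hlow := hF lo c h0 hclo (le_trans hchi h2)
  have hup := hlow.add log_div_tendsto51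
  rw [add_zero] at hup
  have hj0 : (0 : ℝ) < j := by exact_mod_cast hj
  have hlognn : ∀ p : ℕ, 0 ≤ Real.log (p : ℝ) := fun p => Real.log_natCast_nonneg p
  refine tendsto_of_tendsto_of_tendsto_of_le_of_le' hlow hup ?_ ?_
  · refine Eventually.of_forall fun n => ?_
    refine div_le_div_of_nonneg_right ?_ (by positivity)
    rw [← Finset.sum_filter]
    apply Finset.sum_le_sum_of_subset_of_nonneg
    · intro p hp
      rw [mem_PS] at hp
      obtain ⟨a1, a2, a3, a4⟩ := hp
      have hn0 : (0 : ℝ) < n := by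
        rcases Nat.eq_zero_or_pos n with h | h
        · exfalso
          rw [h] at a1
          omega
        · exact_mod_cast h
      have hcl : lo < c := by
        have h3 : (lo : ℝ) * n < c * n := lt_trans a3 a4
        exact_mod_cast lt_of_mul_lt_mul_right h3 hn0.le
      have hcm : c ≤ min hi ((α : ℚ) / j) := by
        rcases le_total lo (min hi ((α : ℚ) / j)) with h | h
        · rw [hc, max_eq_right h]
        · rw [max_eq_left h] at hc
          exact absurd hcl (by rw [hc]; exact lt_irrefl _)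
      have hc1 : (c : ℝ) ≤ (α : ℝ) / j := by
        have h3 : c ≤ (α : ℚ) / j := le_trans hcm (min_le_right _ _)
        have h4 : (c : ℝ) ≤ (((α : ℚ) / j : ℚ) : ℝ) := Rat.cast_le.2 h3
        push_cast at h4
        exact h4
      have hc2 : (c : ℝ) ≤ hi := by exact_mod_cast hchi
      rw [Finset.mem_filter, mem_PS]
      refine ⟨⟨a1, a2, a3, lt_of_lt_of_le a4 (mul_le_mul_of_nonneg_right hc2 hn0.le)⟩, ?_⟩
      have h5 : (p : ℝ) < (α : ℝ) / j * n := lt_of_lt_of_le a4
        (mul_le_mul_of_nonneg_right hc1 hn0.le)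
      have h6 : (j : ℝ) * p < α * n := by
        rw [div_mul_eq_mul_div, lt_div_iff₀ hj0] at h5
        linarith
      have h7 : ((j * p : ℕ) : ℝ) < ((α * n : ℕ) : ℝ) := by push_cast; exact h6
      exact (Nat.cast_lt.1 h7).le
    · intro p _ _
      exact mul_nonneg (Nat.cast_nonneg _) (hlognn p)
  · filter_upwards [eventually_ge_atTop 1] with n hn
    have hn0 : (0 : ℝ) < n := by exact_mod_cast hn
    have h13 : 0 ≤ Real.log (51 * (n : ℝ)) := by
      apply Real.log_nonneg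
      have : (1 : ℝ) ≤ n := by exact_mod_cast hn
      linarith
    have hb : (∑ p ∈ PS lo hi n, if j * p ≤ α * n then (n : ℝ) * Real.log p else 0) ≤
        (∑ p ∈ PS lo c n, (n : ℝ) * Real.log p) + n * Real.log (51 * n) := by
      rw [← Finset.sum_filter]
      have hsub : (PS lo hi n).filter (fun p => j * p ≤ α * n) ⊆
          PS lo c n ∪ {α * n / j} := by
        intro p hp
        rw [Finset.mem_filter, mem_PS] at hp
        obtain ⟨⟨a1, a2, a3, a4⟩, a5⟩ := hp
        rw [Finset.mem_union, Finset.mem_singleton, mem_PS]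
        rcases Nat.eq_or_lt_of_le a5 with h | h
        · right
          rw [← h]
          exact (Nat.mul_div_cancel_left p (by omega)).symm
        · left
          refine ⟨a1, a2, a3, ?_⟩
          have h5 : (p : ℝ) < (α : ℝ) / j * n := by
            rw [div_mul_eq_mul_div, lt_div_iff₀ hj0]
            have : ((j * p : ℕ) : ℝ) < ((α * n : ℕ) : ℝ) := Nat.cast_lt.2 h
            push_cast at this
            linarith
          have h6 : (c : ℝ) = max (lo : ℝ) (min (hi : ℝ) ((α : ℝ) / j)) := by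
            rw [hc]; push_cast; rfl
          rw [h6]
          have h7 : (p : ℝ) < min (hi : ℝ) ((α : ℝ) / j) * n := by
            rcases le_total (hi : ℝ) ((α : ℝ) / j) with h8 | h8
            · rw [min_eq_left h8]; exact a4
            · rw [min_eq_right h8]; exact h5
          exact lt_of_lt_of_le h7 (mul_le_mul_of_nonneg_right (le_max_right _ _) hn0.le)
      refine le_trans (Finset.sum_le_sum_of_subset_of_nonneg hsub ?_) ?_
      · intro p _ _
        exact mul_nonneg (Nat.cast_nonneg _) (hlognn p)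
      · have hui := Finset.sum_union_inter (s₁ := PS lo c n) (s₂ := {α * n / j})
          (f := fun p : ℕ => (n : ℝ) * Real.log p)
        have hint : 0 ≤ ∑ p ∈ PS lo c n ∩ {α * n / j}, (n : ℝ) * Real.log p :=
          Finset.sum_nonneg fun p _ => mul_nonneg (Nat.cast_nonneg _) (hlognn p)
        refine le_trans (b := (∑ p ∈ PS lo c n, (n : ℝ) * Real.log p) +
          ∑ p ∈ ({α * n / j} : Finset ℕ), (n : ℝ) * Real.log p) (by linarith) ?_
        · rw [Finset.sum_singleton]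
          apply add_le_add_right
          apply mul_le_mul_of_nonneg_left _ hn0.le
          rcases Nat.eq_zero_or_pos (α * n / j) with h | h
          · rw [h]; simpa using h13
          · apply Real.log_le_log (by exact_mod_cast h)
            have h8 : α * n / j ≤ 51 * n := by
              refine le_trans (Nat.div_le_self _ _) ?_
              exact Nat.mul_le_mul_right _ (by omega)
            exact_mod_cast h8
    calc (∑ p ∈ PS lo hi n, if j * p ≤ α * n then (n : ℝ) * Real.log p else 0) / (n : ℝ) ^ 2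
        ≤ ((∑ p ∈ PS lo c n, (n : ℝ) * Real.log p) + n * Real.log (51 * n)) / (n : ℝ) ^ 2 :=
          div_le_div_of_nonneg_right hb (by positivity)
      _ = _ := by
          rw [add_div]
          congr 1
          field_simp

theorem F1_floor_of (α : ℕ) (lo hi : ℚ) (h0 : 1 / 20 ≤ lo) (h1 : lo ≤ hi) (h2 : hi ≤ 50)
    (hα : α ≤ 50) :
    Tendsto (fun n : ℕ => (∑ p ∈ PS lo hi n, (n : ℝ) * ((α * n / p : ℕ) : ℝ) * Real.log p) /
      (n : ℝ) ^ 2) atTop (𝓝 ((Ifl α lo hi : ℚ) : ℝ)) := by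
  classical
  have hlo : 0 < lo := lt_of_lt_of_le (by norm_num) h0
  have hsum : Tendsto (fun n : ℕ => ∑ j ∈ J, (∑ p ∈ PS lo hi n,
      if j * p ≤ α * n then (n : ℝ) * Real.log p else 0) / (n : ℝ) ^ 2) atTop
      (𝓝 (∑ j ∈ J, ((max lo (min hi ((α : ℚ) / j)) - lo : ℚ) : ℝ))) := by
    apply tendsto_finsetSum
    intro j hj
    exact one_j hF α j hα (Finset.mem_Icc.1 hj).1 lo hi hlo h1 h2
  have hlim : (∑ j ∈ J, ((max lo (min hi ((α : ℚ) / j)) - lo : ℚ) : ℝ)) =
      ((Ifl α lo hi : ℚ) : ℝ) := by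
    unfold Ifl
    push_cast
    rfl
  rw [hlim] at hsum
  refine hsum.congr ?_
  intro n
  rw [← Finset.sum_div, Finset.sum_comm]
  congr 1
  apply Finset.sum_congr rfl
  intro p hp
  rw [mem_PS] at hp
  obtain ⟨a1, a2, a3, a4⟩ := hp
  have hn20 : n < 20 * p := by
    have h5 : (1 / 20 : ℝ) ≤ lo := by
      have : ((1 / 20 : ℚ) : ℝ) ≤ (lo : ℝ) := by exact_mod_cast h0
      push_cast at this
      exact this
    have h6 : (1 / 20 : ℝ) * n ≤ lo * n := mul_le_mul_of_nonneg_right h5 (Nat.cast_nonneg _)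
    have h7 : (n : ℝ) < 20 * p := by linarith
    exact_mod_cast h7
  rw [floor_sum α n p hα a2.pos hn20, Finset.mul_sum, Finset.sum_mul]
  apply Finset.sum_congr rfl
  intro j _
  split_ifs
  · ring
  · ring

end F1f

theorem F1_floor (α : ℕ) (lo hi : ℚ) (h0 : 1 / 20 ≤ lo) (h1 : lo ≤ hi) (h2 : hi ≤ 50) (hα : α ≤ 50) :
    Tendsto (fun n : ℕ => (∑ p ∈ PS lo hi n, (n : ℝ) * ((α * n / p : ℕ) : ℝ) * Real.log p) / (n : ℝ) ^ 2) atTop
      (𝓝 ((Ifl α lo hi : ℚ) : ℝ)) :=
  F1f.F1_floor_of (fun lo hi a b c => F1_const lo hi a b c) α lo hi h0 h1 h2 hα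

end

end Pool.Agent.H343Z
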