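import Pool.Agent.H343Z.Defs
import Pool.Agent.H337R2.Asym

/-! Task F4 (helper439), after `Pool.Agent.H336R2.HD.F4`. -/

open Polynomial Pool.Agent.H337R2 Filter Topology

namespace Pool.Agent.H343Z

noncomputable section

/-- small primes: trivial exponents -/
theorem F4_small : ∀ ε : ℝ, 0 < ε → ∀ᶠ n : ℕ in atTop,
    25 * (n : ℝ) * (∑ p ∈ (Finset.range (n + 1)).filter (fun p : ℕ => p.Prime ∧ p ^ 2 ≤ 50 * n),
        100 * Real.log (50 * n + 1) +
      ∑ p ∈ (Finset.range (n + 1)).filter (fun p : ℕ => p.Prime ∧ 20 * p ≤ n), 14 * Real.log p) ≤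
    (35 / 2 + ε) * (n : ℝ) ^ 2 := by
  intro ε hε
  filter_upwards [rpow_lim 51 (by norm_num) (ε / 40000) (by positivity),
    theta_lim (1 / 20) (by norm_num) (ε / 700) (by positivity), eventually_ge_atTop 1] with n h1 h2 hn
  have hn0 : (1 : ℝ) ≤ n := by exact_mod_cast hn
  have hM1 : (1 : ℝ) ≤ 50 * (n : ℝ) + 1 := by linarith
  have hlog0 : 0 ≤ Real.log (50 * (n : ℝ) + 1) := Real.log_nonneg hM1
  -- second sum
  have hS2 : ∑ p ∈ (Finset.range (n + 1)).filter (fun p : ℕ => p.Prime ∧ 20 * p ≤ n), 14 * Real.log (p : ℝ) ≤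
      14 * Chebyshev.theta (1 / 20 * n) := by
    rw [← Finset.mul_sum]
    apply mul_le_mul_of_nonneg_left _ (by norm_num)
    unfold Chebyshev.theta
    apply Finset.sum_le_sum_of_subset_of_nonneg
    · intro p hp
      rw [Finset.mem_filter] at hp
      rw [Finset.mem_filter, Finset.mem_Ioc]
      refine ⟨⟨hp.2.1.pos, ?_⟩, hp.2.1⟩
      rw [Nat.le_floor_iff (by positivity)]
      have : ((20 * p : ℕ) : ℝ) ≤ (n : ℝ) := by exact_mod_cast hp.2.2
      push_cast at this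
      linarith
    · intro p hp _
      rw [Finset.mem_filter] at hp
      exact Real.log_nonneg (by exact_mod_cast hp.2.one_lt.le)
  -- first sum
  have hcard : (((Finset.range (n + 1)).filter (fun p : ℕ => p.Prime ∧ p ^ 2 ≤ 50 * n)).card : ℝ) ≤
      (Nat.sqrt (50 * n) : ℝ) + 1 := by
    have hsub : (Finset.range (n + 1)).filter (fun p : ℕ => p.Prime ∧ p ^ 2 ≤ 50 * n) ⊆
        Finset.range (Nat.sqrt (50 * n) + 1) := by
      intro p hp
      rw [Finset.mem_filter] at hp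
      rw [Finset.mem_range]
      have : p ≤ Nat.sqrt (50 * n) := Nat.le_sqrt'.2 hp.2.2
      omega
    have := Finset.card_le_card hsub
    rw [Finset.card_range] at this
    exact_mod_cast this
  have hS1 : ∑ p ∈ (Finset.range (n + 1)).filter (fun p : ℕ => p.Prime ∧ p ^ 2 ≤ 50 * n),
        100 * Real.log (50 * (n : ℝ) + 1) ≤ ε / 50 * n := by
    rw [Finset.sum_const, nsmul_eq_mul]
    have h3 : Real.log (50 * (n : ℝ) + 1) ≤ (50 * (n : ℝ) + 1) ^ (1 / 4 : ℝ) / (1 / 4) :=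
      Real.log_le_rpow_div (by positivity) (by norm_num)
    have h4 : ((Nat.sqrt (50 * n) : ℕ) : ℝ) + 1 ≤ 2 * (50 * (n : ℝ) + 1) ^ (1 / 2 : ℝ) := by
      have h5 : ((Nat.sqrt (50 * n) : ℕ) : ℝ) ≤ Real.sqrt (50 * (n : ℝ) + 1) := by
        apply Real.le_sqrt_of_sq_le
        have := Nat.sqrt_le' (50 * n)
        exact_mod_cast (by omega : Nat.sqrt (50 * n) ^ 2 ≤ 50 * n + 1)
      rw [← Real.sqrt_eq_rpow]
      have h6 : 1 ≤ Real.sqrt (50 * (n : ℝ) + 1) := by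
        rw [Real.one_le_sqrt]; exact hM1
      linarith
    have h5 : (50 * (n : ℝ) + 1) ^ (3 / 4 : ℝ) ≤ ε / 40000 * n := by
      refine le_trans ?_ h1
      apply Real.rpow_le_rpow (by positivity) (by linarith) (by norm_num)
    have h6 : (50 * (n : ℝ) + 1) ^ (1 / 2 : ℝ) * (50 * (n : ℝ) + 1) ^ (1 / 4 : ℝ) = (50 * (n : ℝ) + 1) ^ (3 / 4 : ℝ) := by
      rw [← Real.rpow_add (by positivity)]; norm_num
    have h7 : 0 ≤ (50 * (n : ℝ) + 1) ^ (1 / 2 : ℝ) := by positivity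
    have h8 : 0 ≤ (50 * (n : ℝ) + 1) ^ (1 / 4 : ℝ) := by positivity
    calc _ ≤ (2 * (50 * (n : ℝ) + 1) ^ (1 / 2 : ℝ)) * (100 * ((50 * (n : ℝ) + 1) ^ (1 / 4 : ℝ) / (1 / 4))) := by
          apply mul_le_mul (hcard.trans h4) _ (by positivity) (by positivity)
          linarith
      _ = 800 * ((50 * (n : ℝ) + 1) ^ (1 / 2 : ℝ) * (50 * (n : ℝ) + 1) ^ (1 / 4 : ℝ)) := by ring
      _ = 800 * (50 * (n : ℝ) + 1) ^ (3 / 4 : ℝ) := by rw [h6]
      _ ≤ 800 * (ε / 40000 * n) := mul_le_mul_of_nonneg_left h5 (by norm_num)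
      _ = ε / 50 * n := by ring
  rw [abs_le] at h2
  have hT : 14 * Chebyshev.theta (1 / 20 * n) ≤ 14 * ((1 / 20 + ε / 700) * n) := by
    have := h2.2
    linarith
  have hsum := add_le_add hS1 (hS2.trans hT)
  have hn6 : 0 ≤ 25 * (n : ℝ) := by positivity
  calc _ ≤ 25 * (n : ℝ) * (ε / 50 * n + 14 * ((1 / 20 + ε / 700) * n)) := mul_le_mul_of_nonneg_left hsum hn6
    _ = (35 / 2 + ε) * (n : ℝ) ^ 2 := by ring

end

end Pool.Agent.H343Z
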