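import Pool.Agent.H343Z.G10lib

/-!
# Archimedean part: G1_0 from G1_mid, G1_trap, G1_cst
-/

open Polynomial Pool.Agent.H337R2

namespace Pool.Agent.H343Z

noncomputable section

/-- crude bound of one factor -/
lemma G10_Y {n N : ℕ} (hNn : N ≤ n) {ρ w : ℝ} (hρ : 0 ≤ ρ) (h0 : -(18 * (n : ℝ)) ≤ w)
    (h1 : w ≤ 18 * n) : qd w (N * ρ) ≤ 648 * (n : ℝ) ^ 2 * (1 + ρ) ^ 2 := by
  have hN' : (N : ℝ) ≤ n := by exact_mod_cast hNn
  have hN0 : (0 : ℝ) ≤ N := Nat.cast_nonneg N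
  have hr : (N : ℝ) * ρ ≤ n * ρ := mul_le_mul_of_nonneg_right hN' hρ
  have hr0 : 0 ≤ (N : ℝ) * ρ := by positivity
  have hn0 : (0 : ℝ) ≤ n := Nat.cast_nonneg n
  have hnr : 0 ≤ (n : ℝ) * ρ := by positivity
  unfold qd
  have h2 : |w + N * ρ| ≤ 18 * n * (1 + ρ) := by
    rw [abs_le]
    constructor <;> nlinarith
  have h3 : |(N : ℝ) * ρ| ≤ 18 * n * (1 + ρ) := by
    rw [abs_le]
    constructor <;> nlinarith
  have h4 : (w + N * ρ) ^ 2 ≤ (18 * n * (1 + ρ)) ^ 2 := by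
    rw [← sq_abs]
    exact pow_le_pow_left₀ (abs_nonneg _) h2 2
  have h5 : ((N : ℝ) * ρ) ^ 2 ≤ (18 * n * (1 + ρ)) ^ 2 := by
    rw [← sq_abs]
    exact pow_le_pow_left₀ (abs_nonneg _) h3 2
  calc (w + N * ρ) ^ 2 + (N * ρ) ^ 2 ≤ (18 * n * (1 + ρ)) ^ 2 + (18 * n * (1 + ρ)) ^ 2 :=
        add_le_add h4 h5
    _ = 648 * (n : ℝ) ^ 2 * (1 + ρ) ^ 2 := by ring

/-- `|2z + 18n|²` -/
lemma G10_2z {U n N : ℕ} (hNn : N ≤ n) (hU : 2 * U ≤ 18 * n) {ρ : ℝ} (hρ : 0 ≤ ρ) (hn : 1 ≤ n) :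
    ‖2 * zv U (N * ρ) + ((18 * n : ℕ) : ℂ)‖ ^ 2 ≤ 4 * (648 * (n : ℝ) ^ 2 * (1 + ρ) ^ 2) := by
  have e : 2 * zv U (N * ρ) + ((18 * n : ℕ) : ℂ) =
      2 * ((((U : ℝ) - 1 / 2 + 9 * n + N * ρ : ℝ) : ℂ) + ((N * ρ : ℝ) : ℂ) * Complex.I) := by
    unfold zv
    push_cast
    ring
  have hU' : (2 : ℝ) * U ≤ 18 * n := by exact_mod_cast hU
  have hU0 : (0 : ℝ) ≤ U := Nat.cast_nonneg U
  have hn' : (1 : ℝ) ≤ n := by exact_mod_cast hn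
  rw [e, norm_mul, mul_pow, Complex.sq_norm ((((U : ℝ) - 1 / 2 + 9 * n + N * ρ : ℝ) : ℂ) +
    ((N * ρ : ℝ) : ℂ) * Complex.I), Complex.normSq_add_mul_I]
  have h1 := G10_Y (w := (U : ℝ) - 1 / 2 + 9 * n) hNn hρ (by linarith) (by linarith)
  unfold qd at h1
  have h2 : ‖(2 : ℂ)‖ ^ 2 = 4 := by norm_num
  rw [h2]
  linarith

/-- `|x|²` -/
lemma G10_x {U n N : ℕ} (hNn : N ≤ n) (hU : U = 0) {ρ : ℝ} (hρ : 0 ≤ ρ) (hn : 1 ≤ n) :
    ‖xv n (zv U (N * ρ))‖ ^ 2 ≤ (648 * (n : ℝ) ^ 2 * (1 + ρ) ^ 2) ^ 2 := by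
  subst hU
  have hn' : (1 : ℝ) ≤ n := by exact_mod_cast hn
  unfold xv
  rw [norm_mul, mul_pow, G10_norm]
  have h0 := G10_norm 0 (N * ρ) 0
  rw [Nat.cast_zero, add_zero] at h0
  rw [h0, sq (648 * (n : ℝ) ^ 2 * (1 + ρ) ^ 2)]
  refine mul_le_mul (G10_Y hNn hρ ?_ ?_) (G10_Y hNn hρ ?_ ?_) (G10_qd_nonneg _ _) (by positivity)
  · push_cast; linarith
  · push_cast; linarith
  · push_cast; linarith
  · push_cast; linarith

/-- blocks of zeros starting at `c N`, in scaled form -/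
lemma G10_Zs (hmid : ∀ (A : ℝ) (L : ℕ) (r : ℝ), 0 ≤ A → 0 ≤ r →
      ∏ j ∈ Finset.range L, qd (A + j + 1 / 2) r ≤ qd (A + L / 2) r ^ L)
    (c N B : ℕ) (ρ : ℝ) (hρ : 0 ≤ ρ) :
    ∏ j ∈ Finset.range (B * N), qd ((c : ℝ) * N + 1 / 2 + j) (N * ρ) ≤
      ((N : ℝ) ^ (2 * B) * ∏ a ∈ Finset.Ico c (c + B), qd ((a : ℕ) + 1 / 2) ρ) ^ N := by
  refine (G10_blockZ hmid ((c : ℝ) * N) (N * ρ) (by positivity) (by positivity) N B).trans ?_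
  rw [Finset.prod_Ico_eq_prod_range, Nat.add_sub_cancel_left, mul_pow, ← Finset.prod_pow,
    ← pow_mul]
  have e1 : ((N : ℝ) ^ (2 * B * N)) = ∏ _b ∈ Finset.range B, ((N : ℝ) ^ 2) ^ N := by
    rw [Finset.prod_const, Finset.card_range, ← pow_mul, ← pow_mul]
    congr 1
    ring
  rw [e1, ← Finset.prod_mul_distrib]
  refine le_of_eq (Finset.prod_congr rfl fun b _ => ?_)
  rw [← mul_pow]
  congr 1
  rw [← G10_qd_scale]
  congr 1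
  push_cast
  ring

/-- the same, with a shift by `s`: a factor `2` for every block -/
lemma G10_Zshift (hmid : ∀ (A : ℝ) (L : ℕ) (r : ℝ), 0 ≤ A → 0 ≤ r →
      ∏ j ∈ Finset.range L, qd (A + j + 1 / 2) r ≤ qd (A + L / 2) r ^ L)
    (c N B : ℕ) (s ρ : ℝ) (hρ : 0 ≤ ρ) (hN : 1 ≤ N) (hs : 0 ≤ s) (hc : 4 * s ≤ c) :
    ∏ j ∈ Finset.range (B * N), qd ((c : ℝ) * N + s + 1 / 2 + j) (N * ρ) ≤
      2 ^ B * ((N : ℝ) ^ (2 * B) * ∏ a ∈ Finset.Ico c (c + B), qd ((a : ℕ) + 1 / 2) ρ) ^ N := by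
  have hN' : (1 : ℝ) ≤ N := by exact_mod_cast hN
  have hr : 0 ≤ (N : ℝ) * ρ := by positivity
  refine (G10_blockZ hmid ((c : ℝ) * N + s) (N * ρ) (by positivity) hr N B).trans ?_
  rw [Finset.prod_Ico_eq_prod_range, Nat.add_sub_cancel_left, mul_pow, ← Finset.prod_pow,
    ← pow_mul]
  have e1 : ((N : ℝ) ^ (2 * B * N)) = ∏ _b ∈ Finset.range B, ((N : ℝ) ^ 2) ^ N := by
    rw [Finset.prod_const, Finset.card_range, ← pow_mul, ← pow_mul]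
    congr 1
    ring
  have e2 : (2 : ℝ) ^ B = ∏ _b ∈ Finset.range B, (2 : ℝ) := by
    rw [Finset.prod_const, Finset.card_range]
  rw [e1, e2, ← Finset.prod_mul_distrib, ← Finset.prod_mul_distrib]
  refine Finset.prod_le_prod (fun b _ => pow_nonneg (G10_qd_nonneg _ _) _) fun b _ => ?_
  have hb : (0 : ℝ) ≤ b := Nat.cast_nonneg b
  have hc0 : (0 : ℝ) ≤ c := Nat.cast_nonneg c
  set w : ℝ := (c : ℝ) * N + N * ((b : ℝ) + 1 / 2) with hw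
  have hw0 : 0 < w := by positivity
  have hcw : 4 * s * N ≤ w := by
    have : 4 * s * N ≤ (c : ℝ) * N := mul_le_mul_of_nonneg_right hc (by linarith)
    have h2 : 0 ≤ (N : ℝ) * ((b : ℝ) + 1 / 2) := by positivity
    linarith
  have e3 : (c : ℝ) * N + s + N * ((b : ℝ) + 1 / 2) = w + s := by rw [hw]; ring
  have h1 := G10_qd_shift hw0 hr hs
  have e4 : qd w (N * ρ) = (N : ℝ) ^ 2 * qd (((c + b : ℕ) : ℝ) + 1 / 2) ρ := by
    rw [← G10_qd_scale]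
    congr 1
    rw [hw]
    push_cast
    ring
  have h2 : ((1 + s / w) ^ 2) ^ N ≤ 2 := by
    have h3 : 1 + s / w ≤ Real.exp (s / w) := by
      have := Real.add_one_le_exp (s / w)
      linarith
    have h4 : ((1 + s / w) ^ 2) ^ N ≤ Real.exp (s / w) ^ (2 * N) := by
      rw [← pow_mul]
      exact pow_le_pow_left₀ (by positivity) h3 _
    have h5 : Real.exp (s / w) ^ (2 * N) ≤ Real.exp (1 / 2) := by
      rw [← Real.exp_nat_mul]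
      apply Real.exp_le_exp.2
      push_cast
      rw [mul_div_assoc', div_le_iff₀ hw0]
      nlinarith
    have h6 : Real.exp (1 / 2) ≤ 2 := by
      have h7 : Real.exp (1 / 2) ^ 2 ≤ 2 ^ 2 := by
        rw [← Real.exp_nat_mul]
        have := Real.exp_one_lt_d9
        norm_num
        linarith
      exact le_of_pow_le_pow_left₀ two_ne_zero (by norm_num) h7
    linarith
  rw [e3]
  calc qd (w + s) (N * ρ) ^ N ≤ ((1 + s / w) ^ 2 * qd w (N * ρ)) ^ N :=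
        pow_le_pow_left₀ (G10_qd_nonneg _ _) h1 _
    _ = ((1 + s / w) ^ 2) ^ N * qd w (N * ρ) ^ N := mul_pow _ _ _
    _ ≤ 2 * qd w (N * ρ) ^ N := mul_le_mul_of_nonneg_right h2 (pow_nonneg (G10_qd_nonneg _ _) _)
    _ = 2 * (((N : ℝ) ^ 2) ^ N * qd (((c + b : ℕ) : ℝ) + 1 / 2) ρ ^ N) := by
        rw [e4, mul_pow]

/-- blocks of poles starting at `c N`, in scaled form -/
lemma G10_Ps (htrap : ∀ (A θ : ℝ) (L : ℕ) (r : ℝ), 0 < A → 0 ≤ r → 1 / 2 ≤ θ →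
      (qd A r * qd (A + L) r) ^ L ≤ (∏ j ∈ Finset.range L, qd (A + j + θ) r) ^ 2)
    (c N B : ℕ) (θ ρ : ℝ) (hρ : 0 ≤ ρ) (hN : 1 ≤ N) (hc : 1 ≤ c) (hθ : 1 / 2 ≤ θ) :
    ((N : ℝ) ^ (4 * (B + 1)) * (qd c ρ * (∏ a ∈ Finset.Ico (c + 1) (c + B + 1), qd ((a : ℕ) : ℝ) ρ) ^ 2 *
      qd ((c + (B + 1) : ℕ) : ℝ) ρ)) ^ N ≤
      (∏ j ∈ Finset.range ((B + 1) * N), qd ((c : ℝ) * N + θ + j) (N * ρ)) ^ 2 := by
  have hN' : (1 : ℝ) ≤ N := by exact_mod_cast hN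
  have hc' : (1 : ℝ) ≤ c := by exact_mod_cast hc
  refine le_trans (le_of_eq ?_) (G10_blockP htrap ((c : ℝ) * N) θ (N * ρ) (by positivity)
    (by positivity) hθ N (B + 1))
  rw [← G10_tele (fun a => qd ((a : ℕ) : ℝ) ρ) c B, mul_pow, ← Finset.prod_pow]
  have e1 : ((N : ℝ) ^ (4 * (B + 1))) ^ N = ∏ _b ∈ Finset.range (B + 1), ((N : ℝ) ^ 4) ^ N := by
    rw [Finset.prod_const, Finset.card_range, ← pow_mul, ← pow_mul, ← pow_mul]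
    congr 1
    ring
  rw [e1, ← Finset.prod_mul_distrib]
  refine Finset.prod_congr rfl fun b _ => ?_
  rw [← mul_pow]
  congr 1
  have e2 : (c : ℝ) * N + N * (b : ℝ) = N * ((c + b : ℕ) : ℝ) := by push_cast; ring
  have e3 : (c : ℝ) * N + N * ((b + 1 : ℕ) : ℝ) = N * ((c + (b + 1) : ℕ) : ℝ) := by
    push_cast; ring
  rw [e2, e3, G10_qd_scale, G10_qd_scale]
  ring

end

end Pool.Agent.H343Z
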