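import Pool.Agent.H343Z.G12a
import Pool.Agent.H343Z.G11

/-!
# `G1_2`
-/

open Polynomial Pool.Agent.H337R2

namespace Pool.Agent.H343Z

noncomputable section

theorem G1_2 : ∃ (C : ℝ) (K : ℕ), 0 < C ∧ ∀ N : ℕ, 1 ≤ N → ∀ n : ℕ, n = 24 * N + 1 → ∀ ρ : ℝ, 0 ≤ ρ →
    (‖Rv n (zv (24 * N) (N * ρ))‖ * ‖xv n (zv (24 * N) (N * ρ))‖ ^ 200 * Real.exp (-(2 * Real.pi * (N * ρ))) *
      (1 + (N * ρ) ^ 2) * ‖aeval (xv n (zv (24 * N) (N * ρ))) (MU N)‖ ^ 2) ^ 2 * GP1 ρ ^ N ≤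
    C * (n : ℝ) ^ K * Real.exp (Lam * N) * (N : ℝ) ^ (960 * N) * (Real.exp (-(314 / 25) * ρ) * GZ2 ρ) ^ N := by
  obtain ⟨C, K, hC, h⟩ := G1_1
  refine ⟨C * Real.exp 18, K, by positivity, ?_⟩
  intro N hN n hn ρ hρ
  have h1 := h N hN n hn ρ hρ
  have h2 := G12.MU_bound N n hN hn ρ hρ
  set S : ℝ := ‖Rv n (zv (24 * N) (N * ρ))‖ * ‖xv n (zv (24 * N) (N * ρ))‖ ^ 200 *
    Real.exp (-(2 * Real.pi * (N * ρ))) * (1 + (N * ρ) ^ 2) with hS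
  set T : ℝ := ‖aeval (xv n (zv (24 * N) (N * ρ))) (MU N)‖ with hT
  set Z1 : ℝ := ∏ a ∈ Finset.range 24, qd ((a : ℕ) + 1 / 2) ρ with hZ1
  set Z2 : ℝ := ∏ a ∈ Finset.Ico (456 : ℕ) 480, qd ((a : ℕ) + 1 / 2) ρ with hZ2
  have hG : GZ2 ρ = Z1 ^ 10 * GZ1 ρ * Z2 ^ 10 := rfl
  have hT4 : 0 ≤ T ^ 4 := by positivity
  have hGZ1 : 0 ≤ GZ1 ρ := by
    unfold GZ1
    exact mul_nonneg (pow_nonneg (Finset.prod_nonneg fun i _ => G12.qd_nonneg _ _) _)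
      (pow_nonneg (Finset.prod_nonneg fun i _ => G12.qd_nonneg _ _) _)
  have hR : 0 ≤ C * (n : ℝ) ^ K * Real.exp (Lam * N) * (Real.exp (-(314 / 25) * ρ) * GZ1 ρ) ^ N := by
    positivity
  calc (S * T ^ 2) ^ 2 * GP1 ρ ^ N = (S ^ 2 * GP1 ρ ^ N) * T ^ 4 := by ring
    _ ≤ (C * (n : ℝ) ^ K * Real.exp (Lam * N) * (Real.exp (-(314 / 25) * ρ) * GZ1 ρ) ^ N) *
        (Real.exp 18 * (N : ℝ) ^ (960 * N) * (Z1 ^ 10 * Z2 ^ 10) ^ N) :=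
        mul_le_mul h1 h2 hT4 hR
    _ = _ := by
        rw [hG]
        generalize (N : ℝ) ^ (960 * N) = P
        simp only [mul_pow]
        ring

end

end Pool.Agent.H343Z
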