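import Pool.Agent.H343Z.G3L

set_option autoImplicit false

/-! # G3C: numerical certificate (break points in units of `1/80`) -/

namespace Pool.Agent.H343Z

namespace G3C

open G3L

/-- break points -/
def br : List ℕ :=
  [23, 49, 84, 128, 184, 251, 314, 373, 434, 509, 579, 644, 725, 844, 929, 987, 1039, 1111, 1250,
   1301, 1348, 1394, 1447, 1535, 1632, 1686, 1736, 1812, 1951, 2005, 2059, 2120, 2219, 2305,
   2356, 2404, 2479, 2606, 2645, 2689, 2750, 2846, 3000, 3067, 3131, 3193, 3264, 3394, 3524,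
   3590, 3659, 3757, 3921, 3984, 4050, 4121, 4187, 4263, 4405, 4536, 4594, 4652, 4720, 4841,
   5004, 5064, 5129, 5215, 5397, 5670, 5759, 5846, 5949, 6136, 6370, 6458, 6559, 6702, 6983,
   7056, 7149, 7255, 7393, 7678, 7784, 7862, 7966, 8075, 8181, 8322, 8606, 8667, 8745, 8855,
   8992, 9169, 9525, 9570, 9635, 9748, 9902, 10071, 10256, 10511, 11044, 11196, 11399, 11616,
   11856, 12170, 12850, 14715, 20157, 37344, 80000]

theorem c1 : chkL PL1 stC lt2 (0 :: br) = true := by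
  decide +kernel

theorem c2 : chkT PL1 stC lt2 ((0 :: br).getLast (by simp)) 4 = true := by
  decide +kernel

end G3C

theorem G3_C (s : ℕ) (hs : s ≤ 10) (ρ : ℝ) (hρ : 0 ≤ ρ) :
    2 ^ 38000 * (Real.exp (-(314 / 25) * ρ) * GZ2 ρ * ∏ s' ∈ Finset.range s, Q2 s' ρ) ≤ 2 ^ t2 s * GP1 ρ :=
  G3L.mainC G3C.br (by simp [G3C.br]) G3C.c1 G3C.c2 s hs ρ hρ

end Pool.Agent.H343Z
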