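import Pool.Agent.H343Z.V2a
import Pool.Agent.H343Z.V1s

/-!
# `V2`: archimedean bound of the linear form by the values on the slanted contour
-/

open Polynomial Pool.Agent.H337R2

namespace Pool.Agent.H343Z

noncomputable section

theorem V2_NL_le : ∃ C : ℝ, 0 < C ∧ ∀ n : ℕ, 2 ≤ n → ∀ u : ℕ → ℚ, zr 7 = (u 3 : ℝ) → zr 9 = (u 5 : ℝ) →
    zr 11 = (u 7 : ℝ) → zr 13 = (u 9 : ℝ) → ∀ Q : ℚ[X], Q.natDegree ≤ 50 * n - 52 → ∀ U : ℕ,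
    (∀ t < U, (X - Polynomial.C (xq n t)) ^ 5 ∣ Q) → ∀ B : ℝ,
    (∀ r : ℝ, 0 ≤ r → ‖Rv n (zv U r)‖ * ‖xv n (zv U r)‖ ^ 55 * ‖aeval (xv n (zv U r)) Q‖ *
      Real.exp (-(2 * Real.pi * r)) ≤ B * (1 + r ^ 2)⁻¹) →
    |((NL n u Q : ℚ) : ℝ)| ≤ C * B :=
  V2_NL_le_of (V1_shift (b := 5) (by norm_num))

end

end Pool.Agent.H343Z
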