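import Pool.Agent.H343Z.Defs
import Pool.Agent.H343Z.H3pre
import Pool.Agent.H336R2.HD.H1
import Pool.Agent.H343Z.H2

/-!
# H3: the diagonal entries modulo p
-/

set_option autoImplicit false

open Polynomial Pool.Agent.H337R2

namespace Pool.Agent.H343Z

open H3

theorem H3_diag {p : ℕ} [Fact p.Prime] (hp : 60 ≤ p) (u : ℕ → ℚ) (hu : ∀ i, padicNorm p (u i) ≤ 1)
    (r : ℕ) (hr1 : 1 ≤ r) (hr2 : 2 * r < p) :
    ∃ w : ℚ, padicNorm p w = 1 ∧ ∀ e : ℕ, e ≤ 98 →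
      padicNorm p ((p : ℚ) ^ (4 - (e : ℤ)) * NL p u (XN p r ^ e *
        ∏ r' ∈ (Finset.Icc 1 ((p - 1) / 2)).erase r, XN p r' ^ 100) -
        w * (-2 * r) ^ e * Fm e) ≤ (p : ℚ)⁻¹ :=
  H3_of (fun r a e hr ha he => H336R2.HD.H1_hs r a e hr ha he) hp u hu r hr1 hr2
    (H2_pa hp r hr1 hr2)

end Pool.Agent.H343Z
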