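import Pool.Agent.H343Z.DefsG
import Pool.Agent.H343Z.B1

/-!
# `V2a`: archimedean bound of the linear form by the values on the slanted contour
(the bound on the contour, `V1_shift` with `b = 5`, is a hypothesis)
-/

open Polynomial Pool.Agent.H337R2

namespace Pool.Agent.H343Z

noncomputable section

lemma V2_deg {n : ℕ} (hn : 2 ≤ n) (Q : ℚ[X]) (hQ : Q.natDegree ≤ 50 * n - 52) :
    (PPn n * EE n Q).degree < (QQ (sN n) (muN n)).degree := by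
  rw [Polynomial.degree_eq_natDegree (QQ_monic _ _).ne_zero]
  refine lt_of_le_of_lt Polynomial.degree_le_natDegree ?_
  have h1 : (PPn n).natDegree ≤ 1 + 2 * 5 * (2 * n) := PP_natDegree_le 5 18 2 n ds10
  have h2 : (EE n Q).natDegree ≤ 2 * (55 + (50 * n - 52)) := by
    unfold EE
    refine Polynomial.natDegree_comp_le.trans ?_
    have h3 : (X ^ 55 * Q : ℚ[X]).natDegree ≤ 55 + (50 * n - 52) := by
      refine Polynomial.natDegree_mul_le.trans ?_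
      exact add_le_add (by rw [Polynomial.natDegree_X_pow]) hQ
    have h4 : (xp n).natDegree ≤ 2 := by
      unfold xp
      refine Polynomial.natDegree_mul_le.trans ?_
      have : (X + C ((18 * n : ℕ) : ℚ) : ℚ[X]).natDegree ≤ 1 := by
        rw [Polynomial.natDegree_X_add_C]
      have h5 : (X : ℚ[X]).natDegree ≤ 1 := Polynomial.natDegree_X_le
      omega
    calc _ ≤ (55 + (50 * n - 52)) * 2 := Nat.mul_le_mul h3 h4
      _ = _ := by ring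
  have h6 : (QQ (sN n) (muN n)).natDegree = 120 * n + 10 := by
    rw [QQ_natDegree, sum_mu_one 18 2 n ds10 (by omega) (by decide) (by decide)]
    simp
    ring
  have h7 : (PPn n * EE n Q).natDegree ≤ (1 + 2 * 5 * (2 * n)) + 2 * (55 + (50 * n - 52)) :=
    Polynomial.natDegree_mul_le.trans (add_le_add h1 h2)
  rw [h6]
  exact_mod_cast (by omega : (PPn n * EE n Q).natDegree < 120 * n + 10)

lemma V2_xp_sub (n t : ℕ) : xp n - C (xq n t) = (X - C (t : ℚ)) * (X + C ((t + 18 * n : ℕ) : ℚ)) := by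
  unfold xp xq
  push_cast
  simp only [map_mul, map_add]
  ring

lemma V2_vanish {n t : ℕ} {Q : ℚ[X]} (h : (X - Polynomial.C (xq n t)) ^ 5 ∣ Q) :
    PowerSeries.coeff (5 - 1) (RS (sN n) (muN n) (PPn n * EE n Q) (t : ℚ)) = 0 := by
  obtain ⟨R, rfl⟩ := h
  have h1 : EE n ((X - C (xq n t)) ^ 5 * R) =
      (X - C (t : ℚ)) ^ 5 * ((X + C ((t + 18 * n : ℕ) : ℚ)) ^ 5 * (xp n ^ 55 * R.comp (xp n))) := by
    unfold EE
    rw [mul_comp, mul_comp, pow_comp, pow_comp, sub_comp, X_comp, C_comp, V2_xp_sub, mul_pow]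
    ring
  have h2 : TS (t : ℚ) (X - C (t : ℚ)) = PowerSeries.X := by
    rw [map_sub, TS_X, TS_C]
    ring
  have h3 : RS (sN n) (muN n) (PPn n * EE n ((X - C (xq n t)) ^ 5 * R)) (t : ℚ) =
      PowerSeries.X ^ 5 * (TS (t : ℚ) (PPn n) *
        TS (t : ℚ) ((X + C ((t + 18 * n : ℕ) : ℚ)) ^ 5 * (xp n ^ 55 * R.comp (xp n))) *
        VV (sN n) (muN n) (t : ℚ)) := by
    unfold RS
    rw [map_mul, h1, map_mul, map_pow, h2]
    ring
  rw [h3, PowerSeries.coeff_X_pow_mul', if_neg (by norm_num)]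

theorem V2_NL_le_of (hV1 : ∃ C : ℝ, 0 < C ∧ ∀ (s : Finset ℕ) (μ : ℕ → ℕ) (P : ℚ[X]),
    P.degree < (QQ s μ).degree → (∀ k ∈ s, 1 ≤ k) → ∀ (U : ℕ) (F : ℝ),
    HasSum (fun t : ℕ => ((PowerSeries.coeff (5 - 1) (RS s μ P (t : ℚ)) : ℚ) : ℝ)) F →
    (∀ t < U, PowerSeries.coeff (5 - 1) (RS s μ P (t : ℚ)) = 0) → ∀ B : ℝ,
    (∀ r : ℝ, 0 ≤ r → ‖aeval (zv U r) P / aeval (zv U r) (QQ s μ)‖ * Real.exp (-(2 * Real.pi * r)) ≤
      B * (1 + r ^ 2)⁻¹) → |F| ≤ C * B) : ∃ C : ℝ, 0 < C ∧ ∀ n : ℕ, 2 ≤ n → ∀ u : ℕ → ℚ, zr 7 = (u 3 : ℝ) → zr 9 = (u 5 : ℝ) →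
    zr 11 = (u 7 : ℝ) → zr 13 = (u 9 : ℝ) → ∀ Q : ℚ[X], Q.natDegree ≤ 50 * n - 52 → ∀ U : ℕ,
    (∀ t < U, (X - Polynomial.C (xq n t)) ^ 5 ∣ Q) → ∀ B : ℝ,
    (∀ r : ℝ, 0 ≤ r → ‖Rv n (zv U r)‖ * ‖xv n (zv U r)‖ ^ 55 * ‖aeval (xv n (zv U r)) Q‖ *
      Real.exp (-(2 * Real.pi * r)) ≤ B * (1 + r ^ 2)⁻¹) →
    |((NL n u Q : ℚ) : ℝ)| ≤ C * B := by
  obtain ⟨C, hC, hCK⟩ := hV1
  refine ⟨C, hC, fun n hn u h3 h5 h7 h9 Q hQ U hU B hB => ?_⟩
  have hdeg := V2_deg hn Q hQ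
  have hsum := B1_hasSum hn u h3 h5 h7 h9 Q hQ
  refine hCK (sN n) (muN n) (PPn n * EE n Q) hdeg ?_ U _ hsum ?_ B ?_
  · intro k hk
    have hk' : k ∈ Finset.Icc (2 * n + 1) (18 * n - 2 * n - 1) := hk
    rw [Finset.mem_Icc] at hk'
    omega
  · intro t ht
    exact V2_vanish (hU t ht)
  · intro r hr
    refine le_trans (le_of_eq ?_) (hB r hr)
    rw [map_mul]
    have e1 : aeval (zv U r) (EE n Q) = (xv n (zv U r)) ^ 55 * aeval (xv n (zv U r)) Q := by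
      unfold EE
      have e2 : aeval (zv U r) (xp n) = xv n (zv U r) := by
        unfold xp xv
        simp
      rw [Polynomial.aeval_comp, e2, map_mul, map_pow, aeval_X]
    rw [e1]
    unfold Rv
    rw [norm_div, norm_div, norm_mul, norm_mul, norm_pow]
    ring

end

end Pool.Agent.H343Z
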